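import Pool.Agent.X17.DW.C
import Pool.Agent.X17.LC.B

set_option autoImplicit false

/-!
# Syracuse orbits near odd integers with random or missing digits

Let `b ≥ 3` be odd, `f` a nonconstant integer polynomial, `A` any integer, and let `n` be a random natural number
with `L` independent digits in base `b`, where for a fixed odd `Δ` at each place some two digits with difference
`Δ` have probability at least `c > 0`. Let `W = √L / (log L) ^ 18` and `κ > 0`. Outside an event of probability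
`o(1)`, uniformly in `A`, the integer `y = f (A + n)` is even, or the Syracuse orbits of all odd integers `z` whose
orbit comes near to one of the numbers `3 ^ i y`, `i ≤ W`, in the sense that the odd part of a number within `exp W`
of `3 ^ i y` is the term number `m` of the orbit of `z`, have merged with the orbit of `y` after `κ L / log L` steps
of the latter, and the number of steps until the first entrance into any invariant set `E` of integers of absolute
value `≤ exp (δ L)`, for example into one of the three known cycles of negative integers or into any other cycle,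
is the one of `y` plus `m - i`. The same for almost all integers with missing digits.
-/

namespace Pool.Agent.Results.MP_005f52_nt.DigitEntrance

open Filter Topology Polynomial Pool.Agent

/-- The Syracuse map on the odd integers. -/
def Syr (N : ℤ) : ℤ := (3 * N + 1) / 2 ^ padicValInt 2 (3 * N + 1)

/-- The number of steps of the orbit of `x` until the first entrance into `E` (infinite if there is none). -/
noncomputable def entrance (E : Set ℤ) (x : ℤ) : ℕ∞ := ⨅ k : {k : ℕ // Syr^[k] x ∈ E}, ((k : ℕ) : ℕ∞)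

/-- The orbits near the numbers `3 ^ i y`, `i ≤ w`, end like the orbit of `y`: there is a number `k ≤ u` of steps such
that for all odd `z` and all `i ≤ w` for which the odd part of a number `3 ^ i y + r`, `|r| ≤ exp w`, is the term
number `m` of the orbit of `z`, the orbit of `z` arrives after `m + k - i` steps at the term number `k` of the orbit
of `y`, and `z` enters every invariant set `E` of integers of absolute value `≤ M` exactly `m - i` steps later
than `y`. -/
def Together (w u M : ℝ) (y : ℤ) : Prop :=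
  ∃ k : ℕ, (k : ℝ) ≤ u ∧ ∀ (z r : ℤ) (m i s : ℕ), Odd z → (i : ℝ) ≤ w → |(r : ℝ)| ≤ Real.exp w →
    2 ^ s * Syr^[m] z = 3 ^ i * y + r →
      i < k ∧ Syr^[m + (k - i)] z = Syr^[k] y ∧
      ∀ E : Set ℤ, (∀ x ∈ E, Syr x ∈ E) → (∀ x ∈ E, |(x : ℝ)| ≤ M) → entrance E z + i = entrance E y + m

/-- The integer with the digits `x 0, x 1, …, x (L - 1)` in base `b`. -/
def number (b : ℕ) {L : ℕ} (x : Fin L → Fin b) : ℕ := ∑ j : Fin L, (x j : ℕ) * b ^ (j : ℕ)

open Classical in
/-- The probability that the random integer with `L` independent digits in base `b`, where the digit at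
the place `j` is `x` with probability `ν j x`, has the property `P`. -/
noncomputable def Prob {b L : ℕ} (ν : Fin L → Fin b → ℝ) (P : ℕ → Prop) : ℝ :=
  ∑ x : Fin L → Fin b, if P (number b x) then ∏ j, ν j (x j) else 0

/-- The `ν j` are probability laws on the digits, and for each place `j` there are two digits `e` and
`e' = e + Δ` whose probabilities are at least `c`. -/
structure DigitLaws (b Δ : ℕ) (c : ℝ) {L : ℕ} (ν : Fin L → Fin b → ℝ) : Prop where
  nonneg : ∀ j x, 0 ≤ ν j x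
  one : ∀ j, ∑ x, ν j x = 1
  two : ∀ j, ∃ e e' : Fin b, (e' : ℕ) = e + Δ ∧ c ≤ ν j e ∧ c ≤ ν j e'

/-- The integers `n < b ^ L` whose `L` digits in base `b` (with leading zeros) are all in `D`. -/
def DigitsIn (b : ℕ) (D : Finset ℕ) (L : ℕ) : Set ℕ := {n | n < b ^ L ∧ ∀ j < L, n / b ^ j % b ∈ D}

/-- The range `√L / (log L) ^ 18`. -/
noncomputable def W (L : ℕ) : ℝ := √ (L : ℝ) / Real.log L ^ 18

/-! ### Shortcut orbits and Syracuse orbits -/

theorem syr_mul {N : ℤ} (hN : N % 2 = 1) :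
    2 ^ padicValInt 2 (3 * N + 1) * Syr N = 3 * N + 1 ∧ Syr N % 2 = 1 := by
  have h0 : 3 * N + 1 ≠ 0 := by omega
  have hd : (2 : ℤ) ^ padicValInt 2 (3 * N + 1) ∣ 3 * N + 1 := by
    have := padicValInt_dvd (p := 2) (3 * N + 1)
    exact_mod_cast this
  have h1 : 2 ^ padicValInt 2 (3 * N + 1) * Syr N = 3 * N + 1 := Int.mul_ediv_cancel' hd
  refine ⟨h1, ?_⟩
  by_contra hcon
  have h2 : (2 : ℤ) ∣ Syr N := by omega
  have h3 : (2 : ℤ) ^ (padicValInt 2 (3 * N + 1) + 1) ∣ 3 * N + 1 := by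
    have h5 : (2 : ℤ) ^ padicValInt 2 (3 * N + 1) * 2 ∣ 2 ^ padicValInt 2 (3 * N + 1) * Syr N :=
      mul_dvd_mul_left _ h2
    rw [h1] at h5
    rw [pow_succ]
    exact h5
  have h4 := (padicValInt_dvd_iff (p := 2) (padicValInt 2 (3 * N + 1) + 1) (3 * N + 1)).1 (by exact_mod_cast h3)
  rcases h4 with h4 | h4
  · exact h0 h4
  · omega

theorem syr_odd {o : ℤ} (ho : o % 2 = 1) : ∀ k : ℕ, Syr^[k] o % 2 = 1 := by
  intro k
  induction k with
  | zero => exact ho
  | succ k ih => rw [Function.iterate_succ_apply']; exact (syr_mul ih).2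

theorem oz_succ' (t : ℕ) (x : ℤ) : X17.DW.oz 1 (t + 1) x =
    X17.DW.oz 1 t x + (if (H499R2.CO.Tz 1)^[t] x % 2 = 1 then 1 else 0) := by
  unfold X17.DW.oz
  rw [Finset.range_add_one, Finset.filter_insert]
  split_ifs with h
  · rw [Finset.card_insert_of_notMem (by simp)]
  · simp

theorem oz_mono {t u : ℕ} (h : t ≤ u) (x : ℤ) : X17.DW.oz 1 t x ≤ X17.DW.oz 1 u x := by
  unfold X17.DW.oz
  exact Finset.card_le_card (Finset.filter_subset_filter _ (Finset.range_mono h))

theorem oz_le (t : ℕ) (x : ℤ) : X17.DW.oz 1 t x ≤ t := by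
  unfold X17.DW.oz
  exact (Finset.card_filter_le _ _).trans (by simp)

/-- the orbit of the odd part of `x` under the Syracuse map and the orbit of `x` under the shortcut map -/
theorem orbit {x o : ℤ} {s : ℕ} (ho : o % 2 = 1) (hx : x = 2 ^ s * o) : ∀ t : ℕ,
    (∃ a : ℕ, (H499R2.CO.Tz 1)^[t] x = 2 ^ a * Syr^[X17.DW.oz 1 t x] o) ∧
      ∀ j < X17.DW.oz 1 t x, ∃ l < t, Syr^[j] o = (H499R2.CO.Tz 1)^[l] x := by
  intro t
  induction t with
  | zero =>
    refine ⟨⟨s, ?_⟩, fun j hj => ?_⟩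
    · rw [X17.DW.oz_zero]; simpa using hx
    · rw [X17.DW.oz_zero] at hj; omega
  | succ t ih =>
    obtain ⟨⟨a, ha⟩, hj⟩ := ih
    have hp := syr_odd ho (X17.DW.oz 1 t x)
    rcases Nat.eq_zero_or_pos a with h0 | h0
    · subst h0
      rw [pow_zero, one_mul] at ha
      have hodd : (H499R2.CO.Tz 1)^[t] x % 2 = 1 := by rw [ha]; exact hp
      have e : X17.DW.oz 1 (t + 1) x = X17.DW.oz 1 t x + 1 := by rw [oz_succ', if_pos hodd]
      rw [e]
      refine ⟨?_, fun j hj' => ?_⟩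
      · obtain ⟨h3, h4⟩ := syr_mul hp
        have hv : 1 ≤ padicValInt 2 (3 * Syr^[X17.DW.oz 1 t x] o + 1) := by
          by_contra hcon
          have h5 : padicValInt 2 (3 * Syr^[X17.DW.oz 1 t x] o + 1) = 0 := by omega
          rw [h5, pow_zero, one_mul] at h3
          omega
        obtain ⟨v, hv'⟩ : ∃ v, padicValInt 2 (3 * Syr^[X17.DW.oz 1 t x] o + 1) = v + 1 :=
          ⟨_, (Nat.sub_add_cancel hv).symm⟩
        refine ⟨v, ?_⟩
        rw [Function.iterate_succ_apply', Function.iterate_succ_apply', ha]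
        unfold H499R2.CO.Tz
        rw [if_neg (by omega), ← h3, hv', pow_succ]
        have : (2 : ℤ) ^ v * 2 * Syr (Syr^[X17.DW.oz 1 t x] o) = 2 * (2 ^ v * Syr (Syr^[X17.DW.oz 1 t x] o)) := by
          ring
        rw [this, Int.mul_ediv_cancel_left _ (by norm_num)]
      · rcases Nat.lt_or_ge j (X17.DW.oz 1 t x) with h | h
        · obtain ⟨l, hl, hl2⟩ := hj j h
          exact ⟨l, by omega, hl2⟩
        · have : j = X17.DW.oz 1 t x := by omega
          subst this
          exact ⟨t, by omega, ha.symm⟩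
    · obtain ⟨a', rfl⟩ : ∃ a', a = a' + 1 := ⟨a - 1, by omega⟩
      have e1 : (2 : ℤ) ^ (a' + 1) * Syr^[X17.DW.oz 1 t x] o = 2 * (2 ^ a' * Syr^[X17.DW.oz 1 t x] o) := by
        rw [pow_succ]; ring
      have hev : (H499R2.CO.Tz 1)^[t] x % 2 = 0 := by rw [ha, e1]; omega
      have e : X17.DW.oz 1 (t + 1) x = X17.DW.oz 1 t x := by
        rw [oz_succ', if_neg (by omega), add_zero]
      rw [e]
      refine ⟨⟨a', ?_⟩, fun j hj' => ?_⟩
      · rw [Function.iterate_succ_apply']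
        unfold H499R2.CO.Tz at ha hev ⊢
        rw [if_pos hev, ha, e1, Int.mul_ediv_cancel_left _ (by norm_num)]
      · obtain ⟨l, hl, hl2⟩ := hj j hj'
        exact ⟨l, by omega, hl2⟩

theorem odd_part_unique {a a' : ℕ} {p p' : ℤ} (hp : p % 2 = 1) (hp' : p' % 2 = 1)
    (h : 2 ^ a * p = 2 ^ a' * p') : p = p' := by
  wlog haa : a ≤ a' generalizing a a' p p'
  · exact (this hp' hp h.symm (by omega)).symm
  obtain ⟨c, rfl⟩ := Nat.exists_eq_add_of_le haa
  rw [pow_add, mul_assoc] at h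
  have h2 : p = 2 ^ c * p' := mul_left_cancel₀ (by positivity) h
  rcases Nat.eq_zero_or_pos c with hc | hc
  · rw [h2, hc]; simp
  · exfalso
    obtain ⟨c', rfl⟩ : ∃ c', c = c' + 1 := ⟨c - 1, by omega⟩
    have : (2 : ℤ) ^ (c' + 1) * p' = 2 * (2 ^ c' * p') := by rw [pow_succ]; ring
    omega

/-- the merging gives many odd terms -/
theorem many_odd {w : ℝ} {t u : ℕ} {y : ℤ} (hw : 0 ≤ w) (h : X17.DW.Near 1 w t y)
    (hu : (2 : ℝ) ^ u ≤ Real.exp w) : u ≤ X17.DW.oz 1 t y := by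
  have hT : ∀ k : ℕ, X17.DW.oz 1 k (-1) = k := by
    intro k
    have h1 : ∀ k : ℕ, (H499R2.CO.Tz 1)^[k] (-1) = -1 := by
      intro k
      induction k with
      | zero => rfl
      | succ k ih => rw [Function.iterate_succ_apply', ih]; norm_num [H499R2.CO.Tz]
    induction k with
    | zero => rfl
    | succ k ih => rw [oz_succ', ih, h1]; norm_num
  have hZ : ∀ k : ℕ, X17.DW.oz 1 k 0 = 0 := by
    intro k
    have h1 : ∀ k : ℕ, (H499R2.CO.Tz 1)^[k] 0 = 0 := by
      intro k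
      induction k with
      | zero => rfl
      | succ k ih => rw [Function.iterate_succ_apply', ih]; norm_num [H499R2.CO.Tz]
    induction k with
    | zero => rfl
    | succ k ih => rw [oz_succ', ih, h1]; norm_num
  -- the classes modulo powers of two
  have hcl : ∀ (v : ℕ) (a : ℤ), (2 : ℝ) ^ v ≤ Real.exp w → ∃ r m : ℤ, |(r : ℝ)| ≤ Real.exp w ∧
      y + r = a + m * 2 ^ v := by
    intro v a hv
    refine ⟨(a - y) % 2 ^ v, -((a - y) / 2 ^ v), ?_, ?_⟩
    · have h1 : 0 ≤ (a - y) % 2 ^ v := Int.emod_nonneg _ (by positivity)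
      have h2 : (a - y) % 2 ^ v < 2 ^ v := Int.emod_lt_of_pos _ (by positivity)
      have h3 : (((a - y) % 2 ^ v : ℤ) : ℝ) < 2 ^ v := by exact_mod_cast h2
      have h4 : (0 : ℝ) ≤ (((a - y) % 2 ^ v : ℤ) : ℝ) := by exact_mod_cast h1
      rw [abs_of_nonneg h4]; linarith
    · have := Int.emod_add_mul_ediv (a - y) (2 ^ v)
      linarith
  have hN : ∀ r : ℤ, |(r : ℝ)| ≤ Real.exp w → (H499R2.CO.Tz 1)^[t] (y + r) = (H499R2.CO.Tz 1)^[t] y ∧
      X17.DW.oz 1 t (y + r) = X17.DW.oz 1 t y := by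
    intro r hr
    have h1 := h 0 r (by simpa using hw) hr
    simpa using h1
  rcases Nat.lt_or_ge t u with htu | htu
  · exfalso
    have htv : (2 : ℝ) ^ t ≤ Real.exp w := (pow_le_pow_right₀ (by norm_num) htu.le).trans hu
    obtain ⟨r, m, hr, he⟩ := hcl t (-1) htv
    obtain ⟨r', m', hr', he'⟩ := hcl t 0 htv
    have h1 := (hN r hr).2
    have h2 := (hN r' hr').2
    rw [he, (X17.DW.iter_add t (-1) m).2, hT] at h1
    rw [he', (X17.DW.iter_add t 0 m').2, hZ] at h2
    have h3 : t = 0 := by omega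
    subst h3
    have h4 := (hN 1 (by simpa using Real.one_le_exp hw)).1
    simp at h4
  · obtain ⟨r, m, hr, he⟩ := hcl u (-1) hu
    have h1 := (hN r hr).2
    have h2 : X17.DW.oz 1 u (y + r) = u := by rw [he, (X17.DW.iter_add u (-1) m).2, hT]
    have h3 := oz_mono htu (y + r)
    omega

theorem Tz_ge (x : ℤ) : (|(x : ℝ)| + 1) / 2 ≤ |((H499R2.CO.Tz 1 x : ℤ) : ℝ)| + 1 := by
  have h : |x| + 1 ≤ 2 * (|H499R2.CO.Tz 1 x| + 1) := by
    unfold H499R2.CO.Tz
    split_ifs with h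
    · rcases abs_cases x with h1 | h1 <;> rcases abs_cases (x / 2) with h2 | h2 <;> omega
    · rcases abs_cases x with h1 | h1 <;> rcases abs_cases ((3 * x + 1) / 2) with h2 | h2 <;> omega
  have h2 : |(x : ℝ)| + 1 ≤ 2 * (|((H499R2.CO.Tz 1 x : ℤ) : ℝ)| + 1) := by exact_mod_cast h
  linarith

theorem iter_ge (j : ℕ) : ∀ x : ℤ, (|(x : ℝ)| + 1) / 2 ^ j ≤ |(((H499R2.CO.Tz 1)^[j] x : ℤ) : ℝ)| + 1 := by
  induction j with
  | zero => intro x; simp
  | succ j ih =>
    intro x
    rw [Function.iterate_succ_apply]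
    refine le_trans ?_ (ih _)
    rw [pow_succ, mul_comm, ← div_div]
    exact div_le_div_of_nonneg_right (Tz_ge x) (by positivity)

/-- the entrance after a time before which there is no entrance -/
theorem entrance_eq {E : Set ℤ} {x p : ℤ} {q : ℕ} (hp : Syr^[q] x = p) (h : ∀ j < q, Syr^[j] x ∉ E) :
    entrance E x = q + entrance E p := by
  unfold entrance
  apply le_antisymm
  · rw [ENat.add_iInf]
    · apply le_iInf
      rintro ⟨k, hk⟩
      rw [← hp, ← Function.iterate_add_apply] at hk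
      refine (iInf_le _ ⟨k + q, hk⟩).trans ?_
      push_cast
      rw [add_comm]
  · apply le_iInf
    rintro ⟨k, hk⟩
    have hkq : q ≤ k := by
      by_contra hcon
      exact h k (by omega) hk
    obtain ⟨l, rfl⟩ := Nat.exists_eq_add_of_le hkq
    have hl : Syr^[l] p ∈ E := by
      rw [← hp, ← Function.iterate_add_apply, add_comm]; exact hk
    push_cast
    gcongr
    exact iInf_le (fun k : {k : ℕ // Syr^[k] p ∈ E} => ((k : ℕ) : ℕ∞)) ⟨l, hl⟩

theorem mem_iter {E : Set ℤ} (hE : ∀ x ∈ E, Syr x ∈ E) {x : ℤ} {j l : ℕ} (h : Syr^[j] x ∈ E) (hl : j ≤ l) :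
    Syr^[l] x ∈ E := by
  obtain ⟨d, rfl⟩ := Nat.exists_eq_add_of_le hl
  induction d with
  | zero => exact h
  | succ d ih =>
    rw [← add_assoc, Function.iterate_succ_apply']
    exact hE _ (ih (by omega))

/-- the property from the merging -/
theorem together_of {w u M : ℝ} {t v : ℕ} {y : ℤ} (hy : y % 2 = 1) (hw : 0 ≤ w) (ht : (t : ℝ) ≤ u)
    (hv : (2 : ℝ) ^ v ≤ Real.exp w) (hvw : w < v) (hM : 2 ^ t * (M + 1) + Real.exp w < |(y : ℝ)|)
    (h : X17.DW.Near 1 w t y) : Together w u M y := by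
  have hk := many_odd hw h hv
  obtain ⟨⟨a, ha⟩, hyl⟩ := orbit (x := y) (o := y) (s := 0) hy (by simp) t
  refine ⟨X17.DW.oz 1 t y, le_trans (by exact_mod_cast oz_le t y) ht, ?_⟩
  intro z r m i s hz hi hr he
  have hik : i < X17.DW.oz 1 t y := by
    have h1 : (i : ℝ) < v := lt_of_le_of_lt hi hvw
    have h2 : i < v := by exact_mod_cast h1
    omega
  have hzo : ∀ k : ℕ, Syr^[k] z % 2 = 1 := syr_odd (Int.odd_iff.1 hz)
  obtain ⟨⟨a', ha'⟩, hzl⟩ := orbit (x := 3 ^ i * y + r) (o := Syr^[m] z) (s := s) (hzo m) he.symm t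
  obtain ⟨h1, h2⟩ := h i r hi hr
  rw [one_mul] at h1 h2
  have hoz : X17.DW.oz 1 t (3 ^ i * y + r) = X17.DW.oz 1 t y - i := by omega
  rw [hoz] at ha' hzl
  -- the merging
  have hmer : Syr^[m + (X17.DW.oz 1 t y - i)] z = Syr^[X17.DW.oz 1 t y] y := by
    rw [Nat.add_comm, Function.iterate_add_apply]
    apply odd_part_unique (a := a') (a' := a)
    · rw [← Function.iterate_add_apply]; exact hzo _
    · exact syr_odd hy _
    · rw [← ha', ← ha, h1]
  refine ⟨hik, hmer, ?_⟩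
  intro E hE hEM
  -- large terms are not in `E`
  have hbig : ∀ x : ℤ, 2 ^ t * (M + 1) < |(x : ℝ)| → ∀ l < t, (H499R2.CO.Tz 1)^[l] x ∉ E := by
    intro x hx l hl hmem
    have h3 := hEM _ hmem
    have h4 := iter_ge l x
    have h5 : (2 : ℝ) ^ l ≤ 2 ^ t := pow_le_pow_right₀ (by norm_num) hl.le
    rw [div_le_iff₀ (by positivity)] at h4
    have h6 : (|(((H499R2.CO.Tz 1)^[l] x : ℤ) : ℝ)| + 1) * 2 ^ l ≤ (M + 1) * 2 ^ t := by
      apply mul_le_mul _ h5 (by positivity)
      · have : (0 : ℝ) ≤ |(((H499R2.CO.Tz 1)^[l] x : ℤ) : ℝ)| := abs_nonneg _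
        linarith
      · linarith
    nlinarith
  have hey : entrance E y = (X17.DW.oz 1 t y : ℕ) + entrance E (Syr^[X17.DW.oz 1 t y] y) := by
    apply entrance_eq rfl
    intro j hj
    obtain ⟨l, hl, hl2⟩ := hyl j hj
    rw [hl2]
    exact hbig y (by have := Real.exp_pos w; linarith) l hl
  have hez : entrance E z = ((m + (X17.DW.oz 1 t y - i) : ℕ) : ℕ∞) + entrance E (Syr^[X17.DW.oz 1 t y] y) := by
    apply entrance_eq hmer
    intro j hj hmem
    have hlast := mem_iter hE hmem (l := m + (X17.DW.oz 1 t y - i) - 1) (by omega)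
    have e : m + (X17.DW.oz 1 t y - i) - 1 = (X17.DW.oz 1 t y - i - 1) + m := by omega
    rw [e, Function.iterate_add_apply] at hlast
    obtain ⟨l, hl, hl2⟩ := hzl (X17.DW.oz 1 t y - i - 1) (by omega)
    rw [hl2] at hlast
    refine hbig (3 ^ i * y + r) ?_ l hl hlast
    push_cast
    have h3 : (1 : ℝ) ≤ 3 ^ i := one_le_pow₀ (by norm_num)
    have h4 : |(y : ℝ)| ≤ |(3 : ℝ) ^ i * y| := by
      rw [abs_mul, abs_of_nonneg (by positivity : (0 : ℝ) ≤ 3 ^ i)]
      exact le_mul_of_one_le_left (abs_nonneg _) h3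
    have h5 : |(3 : ℝ) ^ i * y| - |(r : ℝ)| ≤ |(3 : ℝ) ^ i * y + r| := by
      have := abs_sub_abs_le_abs_sub ((3 : ℝ) ^ i * y) (-(r : ℝ))
      rw [abs_neg, sub_neg_eq_add] at this
      exact this
    linarith
  rw [hez, hey]
  have e2 : ((m + (X17.DW.oz 1 t y - i) : ℕ) : ℕ∞) + i = ((X17.DW.oz 1 t y : ℕ) : ℕ∞) + m := by
    have : m + (X17.DW.oz 1 t y - i) + i = X17.DW.oz 1 t y + m := by omega
    exact_mod_cast this
  rw [add_right_comm, e2, add_right_comm]

/-! ### Probabilities -/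

theorem prob_eq {b L : ℕ} (ν : Fin L → Fin b → ℝ) (P : ℕ → Prop) : Prob ν P = X17.MD.prob ν P := by
  classical
  rw [X17.MD.prob_eq P ((Finset.univ : Finset (Fin L → Fin b)).filter (fun d => P (X17.MD.num b d)))
    (fun d => by simp), Finset.sum_filter]
  unfold Prob
  apply Finset.sum_congr rfl
  intro d _
  have e : number b d = X17.MD.num b d := rfl
  rw [e]
  by_cases h : P (X17.MD.num b d)
  · rw [if_pos h, if_pos h]; rfl
  · rw [if_neg h, if_neg h]

theorem laws {b Δ : ℕ} {c c' : ℝ} (hc : c' ≤ c) {L : ℕ} {ν : Fin L → Fin b → ℝ} (h : DigitLaws b Δ c ν) :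
    X17.MD.Law b Δ c' ν :=
  ⟨h.nonneg, h.one, fun j => by
    obtain ⟨e, e', h1, h2, h3⟩ := h.two j
    exact ⟨e, e', h1, hc.trans h2, hc.trans h3⟩⟩

/-- the sizes -/
theorem sizes {κ δ : ℝ} (hδ : 0 < δ) : ∀ᶠ L : ℕ in atTop, 0 ≤ W L ∧
    (∃ v : ℕ, (2 : ℝ) ^ v ≤ Real.exp (W L) ∧ W L < v) ∧
    ∀ t : ℕ, (t : ℝ) ≤ κ * (L / Real.log L) →
      2 ^ t * (Real.exp (δ * L) + 1) + Real.exp (W L) < Real.exp (2 * δ * L) := by
  have hlog : Tendsto (fun L : ℕ => Real.log (L : ℝ)) atTop atTop :=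
    Real.tendsto_log_atTop.comp tendsto_natCast_atTop_atTop
  have hcast : Tendsto (fun L : ℕ => (L : ℝ)) atTop atTop := tendsto_natCast_atTop_atTop
  have hpow : ∀ᶠ L : ℕ in atTop, Real.log (L : ℝ) ^ 36 ≤ 1 / 9 * (L : ℝ) := by
    have h1 := (Real.isLittleO_pow_log_id_atTop (n := 36)).bound (show (0 : ℝ) < 1 / 9 by norm_num)
    filter_upwards [hcast.eventually h1, hlog.eventually_ge_atTop 0] with L h2 h3
    rw [Real.norm_of_nonneg (by positivity), id, Real.norm_of_nonneg (Nat.cast_nonneg L)] at h2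
    exact h2
  filter_upwards [hpow, hlog.eventually_ge_atTop 1, hlog.eventually_ge_atTop (2 * κ / δ),
    hcast.eventually_ge_atTop (4 / δ ^ 2), hcast.eventually_ge_atTop (4 / δ), hcast.eventually_ge_atTop 1]
    with L h1 h2 h3 h4 h5 h6
  have hl0 : 0 < Real.log L := by linarith
  have hL0 : (0 : ℝ) < L := by linarith
  have hW3 : 3 ≤ W L := by
    unfold W
    rw [le_div_iff₀ (by positivity)]
    apply Real.le_sqrt_of_sq_le
    calc (3 * Real.log (L : ℝ) ^ 18) ^ 2 = 9 * Real.log (L : ℝ) ^ 36 := by ring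
      _ ≤ (L : ℝ) := by linarith
  have hWs : W L ≤ √ (L : ℝ) := by
    unfold W
    exact div_le_self (Real.sqrt_nonneg _) (one_le_pow₀ h2)
  have hWd : W L ≤ δ / 2 * L := by
    refine hWs.trans ?_
    rw [Real.sqrt_le_left (by positivity)]
    have h7 : 4 ≤ L * δ ^ 2 := by rwa [div_le_iff₀ (by positivity)] at h4
    nlinarith
  refine ⟨by linarith, ?_, ?_⟩
  · refine ⟨⌊W L / Real.log 2⌋₊, ?_, ?_⟩
    · have hl2 : 0 < Real.log 2 := Real.log_pos (by norm_num)
      have h7 : (⌊W L / Real.log 2⌋₊ : ℝ) ≤ W L / Real.log 2 := Nat.floor_le (by positivity)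
      rw [le_div_iff₀ hl2] at h7
      calc (2 : ℝ) ^ ⌊W L / Real.log 2⌋₊ = Real.exp (⌊W L / Real.log 2⌋₊ * Real.log 2) := by
            rw [Real.exp_nat_mul, Real.exp_log (by norm_num)]
        _ ≤ Real.exp (W L) := Real.exp_le_exp.2 h7
    · have h7 := Nat.lt_floor_add_one (W L / Real.log 2)
      have h8 : Real.log 2 < 0.6931471808 := Real.log_two_lt_d9
      have hl2 : 0 < Real.log 2 := Real.log_pos (by norm_num)
      have h9 : W L * 1.4 ≤ W L / Real.log 2 := by
        rw [le_div_iff₀ hl2]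
        nlinarith
      linarith
  · intro t ht
    have h7 : (2 : ℝ) ^ t ≤ Real.exp (δ / 2 * L) := by
      have h8 : κ * (L / Real.log L) ≤ δ / 2 * L := by
        rw [mul_div_assoc', div_le_iff₀ hl0]
        have h9 : 2 * κ ≤ δ * Real.log L := by
          rw [div_le_iff₀ hδ] at h3
          linarith
        nlinarith
      calc (2 : ℝ) ^ t = Real.exp (t * Real.log 2) := by
            rw [Real.exp_nat_mul, Real.exp_log (by norm_num)]
        _ ≤ Real.exp (δ / 2 * L) := by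
            apply Real.exp_le_exp.2
            have h9 : Real.log 2 ≤ 1 := by
              have := Real.log_two_lt_d9
              linarith
            have h10 : (t : ℝ) * Real.log 2 ≤ t * 1 := mul_le_mul_of_nonneg_left h9 (Nat.cast_nonneg t)
            linarith
    have h8 : Real.exp (W L) ≤ Real.exp (δ / 2 * L) := Real.exp_le_exp.2 hWd
    have hL1 : (4 : ℝ) ≤ δ * L := by
      rw [div_le_iff₀ hδ] at h5
      linarith
    have h9 : (3 : ℝ) ≤ Real.exp (δ / 2 * L) := by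
      have := Real.add_one_le_exp (δ / 2 * L)
      linarith
    obtain ⟨E, hE⟩ : ∃ E : ℝ, E = Real.exp (δ / 2 * L) := ⟨_, rfl⟩
    have e1 : Real.exp (δ * L) = E * E := by rw [hE, ← Real.exp_add]; ring_nf
    have e2 : Real.exp (2 * δ * L) = E * E * (E * E) := by
      rw [hE, ← Real.exp_add, ← Real.exp_add]; ring_nf
    rw [← hE] at h7 h8 h9
    rw [e1, e2]
    have h10 : (2 : ℝ) ^ t * (E * E + 1) ≤ E * (E * E + 1) := mul_le_mul_of_nonneg_right h7 (by positivity)
    have h11 : E * (E * E + 1) + E < E * E * (E * E) := by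
      nlinarith [mul_pos (show (0 : ℝ) < E by linarith) (show (0 : ℝ) < E by linarith),
        mul_pos (mul_pos (show (0 : ℝ) < E by linarith) (show (0 : ℝ) < E by linarith)) (show (0 : ℝ) < E by linarith)]
    linarith

/-- the estimates, for the laws with a parameter at most one -/
theorem main {b : ℕ} (hbo : b % 2 = 1) (hb3 : 3 ≤ b) {f : ℤ[X]} (hf : 1 ≤ f.natDegree) {c : ℝ}
    (hc : 0 < c) (hc1 : c ≤ 1) {κ ε : ℝ} (hκ : 0 < κ) (hε : 0 < ε) :
    ∃ L₀ : ℕ, ∀ L ≥ L₀, ∀ (Δ : ℕ) (ν : Fin L → Fin b → ℝ), Δ % 2 = 1 → X17.MD.Law b Δ c ν → ∀ A : ℤ,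
      X17.MD.prob ν (fun n => Odd (f.eval (A + (n : ℤ))) ∧
        ¬ Together (W L) (κ * (L / Real.log L)) (Real.exp (c / 4 * L)) (f.eval (A + (n : ℤ)))) ≤ ε := by
  obtain ⟨L₁, h⟩ := X17.DW.near hf hbo hb3 hc hc1 hκ (show 0 < ε / 2 by positivity)
  obtain ⟨C, hC, hs⟩ := X17.LC.small_shift hf
  obtain ⟨L₂, h2⟩ := eventually_atTop.1 (sizes (κ := κ) (show 0 < c / 4 by positivity))
  have hsmall : ∀ᶠ L : ℕ in atTop, C * Real.exp (-(c / 2 * L)) ≤ ε / 2 := by
    have h1 : Tendsto (fun L : ℕ => C * Real.exp (-(c / 2 * L))) atTop (𝓝 (C * 0)) := by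
      apply Tendsto.const_mul
      apply Real.tendsto_exp_neg_atTop_nhds_zero.comp
      exact Tendsto.const_mul_atTop (by positivity) tendsto_natCast_atTop_atTop
    rw [mul_zero] at h1
    exact h1.eventually (ge_mem_nhds (by positivity))
  obtain ⟨L₃, h3⟩ := eventually_atTop.1 hsmall
  refine ⟨max L₁ (max L₂ L₃), fun L hL Δ ν hΔ hl A => ?_⟩
  have hL1 : L₁ ≤ L := (le_max_left _ _).trans hL
  have hL2 : L₂ ≤ L := ((le_max_left _ _).trans (le_max_right _ _)).trans hL
  have hL3 : L₃ ≤ L := ((le_max_right _ _).trans (le_max_right _ _)).trans hL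
  obtain ⟨t, ht, hn⟩ := h L hL1
  obtain ⟨hW, ⟨v, hv1, hv2⟩, hsz⟩ := h2 L hL2
  have h4 := (hn Δ ν hΔ hl A).1 1 (by norm_num)
  have h5 := hs (b := b) (by omega) (by omega) hc1 hl A (Real.exp (2 * (c / 4) * L)) (Real.one_le_exp (by positivity))
  have h6 : C * Real.exp (2 * (c / 4) * L) * (1 - c) ^ L ≤ ε / 2 := by
    refine le_trans ?_ (h3 L hL3)
    have h7 : (1 - c) ^ L ≤ Real.exp (-(c * L)) := by
      have h8 : 1 - c ≤ Real.exp (-c) := by
        have := Real.add_one_le_exp (-c)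
        linarith
      calc (1 - c) ^ L ≤ Real.exp (-c) ^ L := pow_le_pow_left₀ (by linarith) h8 L
        _ = Real.exp (-(c * L)) := by rw [← Real.exp_nat_mul]; ring_nf
    calc C * Real.exp (2 * (c / 4) * L) * (1 - c) ^ L ≤ C * Real.exp (2 * (c / 4) * L) * Real.exp (-(c * L)) :=
          mul_le_mul_of_nonneg_left h7 (by positivity)
      _ = C * Real.exp (-(c / 2 * L)) := by rw [mul_assoc, ← Real.exp_add]; ring_nf
  refine (X17.MD.prob_mono hl.nonneg (Q := fun n => ¬ X17.DW.Near 1 (X17.MQ.Wd L) t (f.eval (A + (n : ℤ))) ∨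
    |((f.eval (A + (n : ℤ)) : ℤ) : ℝ)| < Real.exp (2 * (c / 4) * L)) (fun n hn' => ?_)).trans
    ((X17.MD.prob_or hl.nonneg _ _).trans (by linarith))
  by_contra hcon
  push Not at hcon
  obtain ⟨hN, hbig⟩ := hcon
  refine hn'.2 (together_of (Int.odd_iff.1 hn'.1) hW ht hv1 hv2 (lt_of_lt_of_le (hsz t ht) hbig) hN)

/-- **Main theorem.** Let `b ≥ 3` be odd, `f` an integer polynomial of degree at least `1`, and `κ, ε > 0`.
1. For every `c > 0` there is `δ > 0` such that for all `L ≥ L₀ (b, f, κ, ε, c)`, for all odd `Δ`, all laws of `L`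
independent digits in base `b` which give at each place probabilities at least `c` to two digits with difference `Δ`,
and all integers `A`, the probability that `y = f (A + n)` is odd and does not have the property
`Together W (κ L / log L) (exp (δ L))`, with `W = √L / (log L) ^ 18`, is at most `ε`.
2. Let `D` be a set of digits which contains an even and an odd digit. There is `δ > 0` such that for `L ≥ L₀` and all
integers `A`, at most `ε |D| ^ L` of the `|D| ^ L` integers `n` with `L` digits, all in `D`, are such that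
`f (A + n)` is odd and does not have this property. -/
theorem result (b : ℕ) (hb : Odd b) (hb3 : 3 ≤ b) (f : ℤ[X]) (hf : 1 ≤ f.natDegree) :
    (∀ c : ℝ, 0 < c → ∃ δ : ℝ, 0 < δ ∧ ∀ κ ε : ℝ, 0 < κ → 0 < ε → ∃ L₀ : ℕ, ∀ L ≥ L₀,
      ∀ (Δ : ℕ) (ν : Fin L → Fin b → ℝ), Odd Δ → DigitLaws b Δ c ν → ∀ A : ℤ,
        Prob ν (fun n => Odd (f.eval (A + (n : ℤ))) ∧
          ¬ Together (W L) (κ * (L / Real.log L)) (Real.exp (δ * L)) (f.eval (A + (n : ℤ)))) ≤ ε) ∧
    (∀ D : Finset ℕ, (∀ x ∈ D, x < b) → (∃ x ∈ D, Even x) → (∃ x ∈ D, Odd x) →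
      ∃ δ : ℝ, 0 < δ ∧ ∀ κ ε : ℝ, 0 < κ → 0 < ε → ∃ L₀ : ℕ, ∀ L ≥ L₀, ∀ A : ℤ,
        ({n : ℕ | n ∈ DigitsIn b D L ∧ Odd (f.eval (A + (n : ℤ))) ∧
          ¬ Together (W L) (κ * (L / Real.log L)) (Real.exp (δ * L)) (f.eval (A + (n : ℤ)))}.ncard : ℝ) ≤
            ε * (D.card : ℝ) ^ L) := by
  have hbo : b % 2 = 1 := Nat.odd_iff.1 hb
  refine ⟨?_, ?_⟩
  · intro c hc
    have hc' : 0 < min c 1 := lt_min hc one_pos
    refine ⟨min c 1 / 4, by positivity, fun κ ε hκ hε => ?_⟩
    obtain ⟨L₀, h⟩ := main hbo hb3 hf hc' (min_le_right _ _) hκ hε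
    refine ⟨L₀, fun L hL Δ ν hΔ hl A => ?_⟩
    rw [prob_eq]
    exact h L hL Δ ν (Nat.odd_iff.1 hΔ) (laws (min_le_left _ _) hl) A
  · intro D hD he ho
    obtain ⟨hcard, x, y, hx, hy, hxy, hpar⟩ := X17.MD.exists_pair (D := D)
      (by obtain ⟨x, h1, h2⟩ := he; exact ⟨x, h1, Nat.even_iff.1 h2⟩)
      (by obtain ⟨x, h1, h2⟩ := ho; exact ⟨x, h1, Nat.odd_iff.1 h2⟩)
    have hc0 : (0 : ℝ) < D.card := by exact_mod_cast (by omega : 0 < D.card)
    have hle : 1 / (D.card : ℝ) ≤ 1 := by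
      rw [div_le_one hc0]
      exact_mod_cast (by omega : 1 ≤ D.card)
    refine ⟨1 / (D.card : ℝ) / 4, by positivity, fun κ ε hκ hε => ?_⟩
    obtain ⟨L₀, h⟩ := main hbo hb3 hf (c := 1 / (D.card : ℝ)) (by positivity) hle hκ hε
    refine ⟨L₀, fun L hL A => ?_⟩
    have h1 := h L hL (y - x) _ hpar (X17.MD.unif_law hD hx hy hxy L) A
    have hp : (0 : ℝ) < (D.card : ℝ) ^ L := by positivity
    have key : ∀ P : ℕ → Prop, X17.MD.prob (X17.MD.unif b D L) P ≤ ε →
        ({n : ℕ | n ∈ DigitsIn b D L ∧ P n}.ncard : ℝ) ≤ ε * (D.card : ℝ) ^ L := by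
      intro P hP
      have e : {n : ℕ | n ∈ DigitsIn b D L ∧ P n} =
          {n : ℕ | n < b ^ L ∧ (∀ j < L, n / b ^ j % b ∈ D) ∧ P n} := by
        ext n; simp only [DigitsIn, Set.mem_ofPred_eq, and_assoc]
      rw [e]
      refine (X17.MD.count_le (by omega) D hD ⟨x, hx⟩ L P).trans ?_
      nlinarith
    exact key _ h1

end Pool.Agent.Results.MP_005f52_nt.DigitEntrance
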