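import Mathlib
import Pool.Agent.X62.BF.Entr
import Pool.Agent.X62.BF.Avg

set_option autoImplicit false

/-!
Basins and entrance times of the cycles of the Syracuse map at the products of odd integers, with
arbitrary bounded weights on the factors.
-/

namespace Pool.Agent.Results.MP_005f52_nt.EntranceAtProducts

open Filter Topology Finset

/-- The Syracuse map. -/
def Syr (N : ℤ) : ℤ := (3 * N + 1) / 2 ^ padicValInt 2 (3 * N + 1)

/-- `Z` is the set of the terms of a periodic orbit of negative odd integers. -/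
def IsCycle (Z : Finset ℤ) : Prop :=
  ∃ (a : ℤ) (p : ℕ), a < 0 ∧ Odd a ∧ 1 ≤ p ∧ Syr^[p] a = a ∧
    Z = (Finset.range p).image fun i => Syr^[i] a

/-- The orbit of `N` enters `Z` after exactly `k` steps. -/
def Enters (Z : Finset ℤ) (k : ℕ) (N : ℤ) : Prop := Syr^[k] N ∈ Z ∧ ∀ i < k, Syr^[i] N ∉ Z

/-- Among the negative odd integers, those with the property `P` have natural density `δ`:
`2 / X` times the number of negative odd `N ≥ -X` with `P N` tends to `δ`. -/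
def HasDensity (P : ℤ → Prop) (δ : ℝ) : Prop :=
  Tendsto (fun X : ℕ => 2 / (X : ℝ) * ({N : ℤ | -(X : ℤ) ≤ N ∧ N < 0 ∧ Odd N ∧ P N}.ncard : ℝ))
    atTop (𝓝 δ)

/-- `log |N| / log (4/3) + x * log 2 * √(2 log |N| / (log (4/3))^3)` -/
noncomputable def bound (x : ℝ) (N : ℤ) : ℝ :=
  1 / Real.log (4 / 3) * Real.log |(N : ℝ)|
    + x * (Real.log 2 * Real.sqrt (2 * Real.log |(N : ℝ)| / Real.log (4 / 3) ^ 3))

/-- The distribution function of the standard normal law. -/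
noncomputable def Phi (x : ℝ) : ℝ :=
  ProbabilityTheory.cdf (ProbabilityTheory.gaussianReal 0 1) x

/-- the three known cycles -/
def C₁ : Finset ℤ := {-1}

/-- the three known cycles -/
def C₂ : Finset ℤ := {-5, -7}

/-- the three known cycles -/
def C₃ : Finset ℤ := {-17, -25, -37, -55, -41, -61, -91}

/-- `u` is a weight: `|u a| ≤ 1`, and `u a = 0` for even `a` (otherwise `u` is arbitrary). -/
def Weight (u : ℕ → ℂ) : Prop := (∀ a, ‖u a‖ ≤ 1) ∧ ∀ a, Even a → u a = 0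

open scoped Classical in
/-- THE FREQUENCY of the property `P` of the negative odd integers `-r a b` is `l`, with arbitrary bounded
weights on the factors `a`, `b`: for every `ε > 0` there is `ϑ > 0` such that for every `α > 0`, all large
`X`, all `M` between `X ^ α` and `X ^ ϑ`, all odd `r ≤ X ^ ϑ` and all weights `u`, `v` (arbitrary complex
numbers of absolute value at most `1` on the odd integers), the sum of `u a * v b` over the odd
`a ∈ (M, 2 M]` and `b ∈ [1, X]` for which `-r a b` has the property `P` is `l (∑ u a) (∑ v b)` up to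
`ε M X`. -/
def AtProducts (P : ℤ → Prop) (l : ℝ) : Prop := ∀ ε : ℝ, 0 < ε → ∃ ϑ : ℝ, 0 < ϑ ∧ ∀ α : ℝ, 0 < α →
  ∃ X₀ : ℕ, ∀ X M r : ℕ, X₀ ≤ X → (X : ℝ) ^ α ≤ M → (M : ℝ) ≤ (X : ℝ) ^ ϑ → r % 2 = 1 →
    (r : ℝ) ≤ (X : ℝ) ^ ϑ → ∀ u v : ℕ → ℂ, Weight u → Weight v →
    ‖∑ p ∈ (Ioc M (2 * M) ×ˢ Icc 1 X).filter (fun p => P (-((r * p.1 * p.2 : ℕ) : ℤ))), u p.1 * v p.2 -
      l * ((∑ a ∈ Ioc M (2 * M), u a) * ∑ b ∈ Icc 1 X, v b)‖ ≤ ε * (M * X)

open Pool.Agent.X62.BF (PL PO PO_of PL_not PL_congr PL_inv pl_entr lln2)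

theorem at_of {P : ℤ → Prop} {l : ℝ} (h : PO (fun n : ℕ => P (-(n : ℤ))) l) : AtProducts P l := by
  intro ε hε
  obtain ⟨ϑ, h0, H⟩ := h ε hε
  refine ⟨ϑ, h0, fun α hα => ?_⟩
  obtain ⟨N0, H⟩ := H α hα
  exact ⟨N0, fun N M r hN h1 h2 h3 h4 u v hu hv => H N M r hN h1 h2 h3 h4 u v hu.1 hv.1 hu.2 hv.2⟩

theorem sets_of {P : ℤ → Prop} {l : ℝ} (h : AtProducts P l) (ε : ℝ) (hε : 0 < ε) : ∃ ϑ : ℝ, 0 < ϑ ∧
    ∀ α : ℝ, 0 < α → ∃ X₀ : ℕ, ∀ X M r : ℕ, X₀ ≤ X → (X : ℝ) ^ α ≤ M → (M : ℝ) ≤ (X : ℝ) ^ ϑ → r % 2 = 1 →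
    (r : ℝ) ≤ (X : ℝ) ^ ϑ → ∀ A B : Set ℕ, (∀ a ∈ A, M < a ∧ a ≤ 2 * M ∧ Odd a) →
    (∀ b ∈ B, b ≤ X ∧ Odd b) →
    |({p : ℕ × ℕ | p.1 ∈ A ∧ p.2 ∈ B ∧ P (-((r * p.1 * p.2 : ℕ) : ℤ))}.ncard : ℝ) -
      l * (A.ncard * B.ncard)| ≤ ε * (M * X) := by
  classical
  obtain ⟨ϑ, h0, H⟩ := h ε hε
  refine ⟨ϑ, h0, fun α hα => ?_⟩
  obtain ⟨N0, H⟩ := H α hα
  refine ⟨N0, fun X M r hX hM1 hM2 hr hr2 A B hA hB => ?_⟩
  set A' : Finset ℕ := (Ioc M (2 * M)).filter (fun a => a ∈ A) with hA'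
  set B' : Finset ℕ := (Icc 1 X).filter (fun b => b ∈ B) with hB'
  have eA : (A' : Set ℕ) = A := by
    ext a
    rw [hA', coe_filter]
    constructor
    · rintro ⟨_, h⟩; exact h
    · intro h; exact ⟨mem_Ioc.2 ⟨(hA a h).1, (hA a h).2.1⟩, h⟩
  have eB : (B' : Set ℕ) = B := by
    ext a
    rw [hB', coe_filter]
    constructor
    · rintro ⟨_, h⟩; exact h
    · intro h; exact ⟨mem_Icc.2 ⟨(hB a h).2.pos, (hB a h).1⟩, h⟩
  have h1 := H X M r hX hM1 hM2 hr hr2 (fun a => if a ∈ A then 1 else 0) (fun b => if b ∈ B then 1 else 0)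
    ⟨fun a => by beta_reduce; split_ifs <;> simp, fun a ha => if_neg fun h =>
      (Nat.not_odd_iff_even.2 ha) (hA a h).2.2⟩
    ⟨fun a => by beta_reduce; split_ifs <;> simp, fun a ha => if_neg fun h =>
      (Nat.not_odd_iff_even.2 ha) (hB a h).2⟩
  have sA : ∑ a ∈ Ioc M (2 * M), (if a ∈ A then (1 : ℂ) else 0) = A.ncard := by
    rw [← sum_filter, ← hA', sum_const, nsmul_eq_mul, mul_one, ← Set.ncard_coe_finset, eA]
  have sB : ∑ a ∈ Icc 1 X, (if a ∈ B then (1 : ℂ) else 0) = B.ncard := by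
    rw [← sum_filter, ← hB', sum_const, nsmul_eq_mul, mul_one, ← Set.ncard_coe_finset, eB]
  have sP : ∑ p ∈ (Ioc M (2 * M) ×ˢ Icc 1 X).filter (fun p => P (-((r * p.1 * p.2 : ℕ) : ℤ))),
      ((if p.1 ∈ A then (1 : ℂ) else 0) * (if p.2 ∈ B then 1 else 0)) =
      ({p : ℕ × ℕ | p.1 ∈ A ∧ p.2 ∈ B ∧ P (-((r * p.1 * p.2 : ℕ) : ℤ))}.ncard : ℂ) := by
    have e1 : ∀ p : ℕ × ℕ, ((if p.1 ∈ A then (1 : ℂ) else 0) * (if p.2 ∈ B then 1 else 0)) =
        if p.1 ∈ A ∧ p.2 ∈ B then 1 else 0 := by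
      intro p
      by_cases h1 : p.1 ∈ A <;> by_cases h2 : p.2 ∈ B <;> simp [h1, h2]
    simp only [e1]
    rw [← sum_filter, filter_filter, sum_const, nsmul_eq_mul, mul_one, ← Set.ncard_coe_finset]
    congr 2
    ext p
    rw [coe_filter]
    constructor
    · rintro ⟨_, h2, h3⟩; exact ⟨h3.1, h3.2, h2⟩
    · rintro ⟨h2, h3, h4⟩
      exact ⟨mem_product.2 ⟨mem_Ioc.2 ⟨(hA _ h2).1, (hA _ h2).2.1⟩,
        mem_Icc.2 ⟨(hB _ h3).2.pos, (hB _ h3).1⟩⟩, h4, h2, h3⟩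
  rw [sA, sB, sP] at h1
  rw [← Real.norm_eq_abs, ← Complex.norm_real]
  refine le_trans (le_of_eq ?_) h1
  congr 1
  push_cast
  rfl

open Pool.Agent.W26.HN Pool.Agent.H499R2.ND in
theorem density_of {P : ℤ → Prop} {δ : ℝ} (h : Dn (fun n : ℕ => n % 2 = 1 ∧ P (-(n : ℤ))) (δ / 2)) :
    HasDensity P δ := by
  unfold HasDensity
  have h1 := h.const_mul 2
  rw [mul_div_cancel₀ δ (by norm_num : (2 : ℝ) ≠ 0)] at h1
  refine h1.congr fun X => ?_
  have e : {N : ℤ | -(X : ℤ) ≤ N ∧ N < 0 ∧ Odd N ∧ P N}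
      = (fun n : ℕ => -(n : ℤ)) '' {n : ℕ | 1 ≤ n ∧ n ≤ X ∧ n % 2 = 1 ∧ P (-(n : ℤ))} := by
    ext N
    constructor
    · rintro ⟨g1, g2, g3, g4⟩
      have g3' := Int.odd_iff.1 g3
      refine ⟨N.natAbs, ⟨by omega, by omega, by omega, ?_⟩, ?_⟩
      · have : -((N.natAbs : ℕ) : ℤ) = N := by omega
        rw [this]; exact g4
      · show -((N.natAbs : ℕ) : ℤ) = N
        omega
    · rintro ⟨n, ⟨g1, g2, g3, g4⟩, rfl⟩
      refine ⟨?_, ?_, ?_, g4⟩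
      · show -(X : ℤ) ≤ -(n : ℤ)
        omega
      · show -(n : ℤ) < 0
        omega
      · rw [Int.odd_iff]
        show -(n : ℤ) % 2 = 1
        omega
  rw [e, Set.ncard_image_of_injective _ (fun a b hab => by
    have : -(a : ℤ) = -(b : ℤ) := hab
    omega)]
  unfold cnt
  ring

theorem log_abs (n : ℕ) : Real.log |((-(n : ℤ) : ℤ) : ℝ)| = Real.log n := by
  have : |((-(n : ℤ) : ℤ) : ℝ)| = n := by
    push_cast
    rw [abs_neg, abs_of_nonneg (Nat.cast_nonneg n)]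
  rw [this]

theorem bound_eq (x : ℝ) (n : ℕ) : bound x (-(n : ℤ)) = Pool.Agent.H499R2.HL.bo x (Real.log n) := by
  unfold bound Pool.Agent.H499R2.HL.bo
  rw [log_abs]

theorem syr_eq {N M : ℤ} (v : ℕ) (h : 3 * N + 1 = 2 ^ v * M) (hM : M % 2 = 1) : Syr N = M :=
  Pool.Agent.W26.HN.Sy_eq h hM

theorem s1 : Syr (-1) = -1 := syr_eq 1 (by norm_num) (by norm_num)
theorem s5 : Syr (-5) = -7 := syr_eq 1 (by norm_num) (by norm_num)
theorem s7 : Syr (-7) = -5 := syr_eq 2 (by norm_num) (by norm_num)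
theorem s17 : Syr (-17) = -25 := syr_eq 1 (by norm_num) (by norm_num)
theorem s25 : Syr (-25) = -37 := syr_eq 1 (by norm_num) (by norm_num)
theorem s37 : Syr (-37) = -55 := syr_eq 1 (by norm_num) (by norm_num)
theorem s55 : Syr (-55) = -41 := syr_eq 2 (by norm_num) (by norm_num)
theorem s41 : Syr (-41) = -61 := syr_eq 1 (by norm_num) (by norm_num)
theorem s61 : Syr (-61) = -91 := syr_eq 1 (by norm_num) (by norm_num)
theorem s91 : Syr (-91) = -17 := syr_eq 4 (by norm_num) (by norm_num)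

theorem cycle₁ : IsCycle C₁ := by
  refine ⟨-1, 1, by norm_num, by decide, le_rfl, by rw [Function.iterate_one, s1], ?_⟩
  rw [show Finset.range 1 = {0} from rfl, Finset.image_singleton]
  rfl

theorem cycle₂ : IsCycle C₂ := by
  have h1 : Syr^[1] (-5) = -7 := by rw [Function.iterate_one, s5]
  have h2 : Syr^[2] (-5) = -5 := by rw [Function.iterate_succ_apply', h1, s7]
  refine ⟨-5, 2, by norm_num, by decide, by norm_num, h2, ?_⟩
  rw [show Finset.range 2 = {0, 1} from rfl, Finset.image_insert, Finset.image_singleton, h1]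
  rfl

theorem cycle₃ : IsCycle C₃ := by
  have h1 : Syr^[1] (-17) = -25 := by rw [Function.iterate_one, s17]
  have h2 : Syr^[2] (-17) = -37 := by rw [Function.iterate_succ_apply', h1, s25]
  have h3 : Syr^[3] (-17) = -55 := by rw [Function.iterate_succ_apply', h2, s37]
  have h4 : Syr^[4] (-17) = -41 := by rw [Function.iterate_succ_apply', h3, s55]
  have h5 : Syr^[5] (-17) = -61 := by rw [Function.iterate_succ_apply', h4, s41]
  have h6 : Syr^[6] (-17) = -91 := by rw [Function.iterate_succ_apply', h5, s61]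
  have h7 : Syr^[7] (-17) = -17 := by rw [Function.iterate_succ_apply', h6, s91]
  refine ⟨-17, 7, by norm_num, by decide, by norm_num, h7, ?_⟩
  rw [show Finset.range 7 = {0, 1, 2, 3, 4, 5, 6} from rfl]
  simp only [Finset.image_insert, Finset.image_singleton, h1, h2, h3, h4, h5, h6]
  rfl

/-- the trajectories of the elements of a cycle are bounded -/
theorem cyc_bd {Z : Finset ℤ} (hZ : Pool.Agent.W26.HN.IsCyc Z) : ∃ B : ℕ, Pool.Agent.Y964.LW.Bd Z B := by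
  have h1 : ∀ y : ℤ, ∃ B : ℕ, y ∈ Z → ∀ i : ℕ, |(Pool.Agent.H499R2.ND.Td 1)^[i] y| ≤ B := by
    intro y
    by_cases hy : y ∈ Z
    · obtain ⟨j0, hj0⟩ := (Pool.Agent.W26.HN.cyc_mem hZ hy y).1 hy
      obtain ⟨hy0, hyo⟩ := Pool.Agent.W26.HN.cyc_odd hZ hy
      obtain ⟨a, p, ha, hao, hp, hpa, hZe⟩ := hZ
      obtain ⟨i0, _, hi0⟩ := Finset.mem_image.1 (hZe ▸ hy)
      have hpy : Pool.Agent.W26.HN.Sy^[p] y = y := by
        rw [← hi0, ← Function.iterate_add_apply, Nat.add_comm, Function.iterate_add_apply, hpa]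
      obtain ⟨k, hk, hky⟩ := Pool.Agent.W26.HN.Sy_iter hyo p
      rw [hpy] at hky
      have hper : Function.IsPeriodicPt (Pool.Agent.H499R2.ND.Td 1) k y := hky
      refine ⟨∑ i ∈ range k, ((Pool.Agent.H499R2.ND.Td 1)^[i] y).natAbs, fun _ i => ?_⟩
      rw [← hper.iterate_mod_apply i]
      have h2 : ((Pool.Agent.H499R2.ND.Td 1)^[i % k] y).natAbs ≤
          ∑ i ∈ range k, ((Pool.Agent.H499R2.ND.Td 1)^[i] y).natAbs :=
        Finset.single_le_sum (f := fun i => ((Pool.Agent.H499R2.ND.Td 1)^[i] y).natAbs)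
          (fun _ _ => Nat.zero_le _) (Finset.mem_range.2 (Nat.mod_lt _ (by omega)))
      rw [Int.abs_eq_natAbs]
      exact_mod_cast h2
    · exact ⟨0, fun h => absurd h hy⟩
  choose B hB using h1
  refine ⟨∑ y ∈ Z, B y, fun y hy i => (hB y hy i).trans ?_⟩
  exact_mod_cast Finset.single_le_sum (f := B) (fun _ _ => Nat.zero_le _) hy

open Pool.Agent.W26.HN in
/-- the relative frequency of an invariant set -/
theorem inv_rel {S : Set ℤ} (hS : ∀ N : ℤ, N < 0 → N % 2 = 1 → (N ∈ S ↔ Sy N ∈ S)) {d : ℝ}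
    (hd : Pool.Agent.H499R2.ND.HD (-1) (Lift S) d) :
    AtProducts (fun N => N ∈ S) d ∧ AtProducts (fun N => N ∉ S) (1 - d) := by
  have h1 := PL_inv (s := -1) (Or.inr rfl) (lift_inv hS) hd
  have h2 : ∀ n : ℕ, 1 ≤ n → Odd n → ((-1 : ℤ) * (n : ℤ) ∈ Lift S ↔ -(n : ℤ) ∈ S) := by
    intro n hn ho
    have ho' := Nat.odd_iff.1 ho
    rw [neg_cast]
    exact lift_odd (by omega) (by omega)
  refine ⟨at_of <| PO_of h1 1 (fun n hn ho => h2 n hn ho), ?_⟩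
  exact at_of <| PO_of (PL_not h1 (fun _ => Iff.rfl)) 1
    (fun n hn ho => not_congr (h2 n hn ho))

open Pool.Agent.W26.HN Pool.Agent.H499R2.ND in
/-- the laws for one cycle -/
theorem one_cyc {Z : Finset ℤ} (hZ : IsCyc Z) : ∃ d : ℝ, 0 < d ∧
    Dn (fun n : ℕ => n % 2 = 1 ∧ -(n : ℤ) ∈ Ba Z) (d / 2) ∧
    AtProducts (fun N => ∃ k : ℕ, Syr^[k] N ∈ Z) d ∧
    (∀ (q : ℕ) (b : ℤ), 1 ≤ q →
      AtProducts (fun N => ∃ k : ℕ, Enters Z k N ∧ (k : ℤ) ≡ b [ZMOD q]) (d / q) ∧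
      ∀ x : ℝ, AtProducts (fun N => ∃ k : ℕ, Enters Z k N ∧ (k : ℝ) ≤ bound x N ∧
            (k : ℤ) ≡ b [ZMOD q]) (d * EntranceAtProducts.Phi x / q)) ∧
    (∀ η : ℝ, 0 < η → AtProducts (fun N => ∃ k : ℕ, Enters Z k N ∧
        |(k : ℝ) - 1 / Real.log (4 / 3) * Real.log (|(N : ℝ)|)| ≤ η * Real.log |(N : ℝ)|) d) := by
  have hodd : ∀ y ∈ Z, y % 2 = 1 := fun y hy => (cyc_odd hZ hy).2
  obtain ⟨B, hB⟩ := cyc_bd hZ
  obtain ⟨d, h0, h1, hpos, hE, hRL, hlaw⟩ := pl_entr (s := -1) (Or.inr rfl) hodd hB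
  obtain ⟨y, hy, hy0, _, hy3⟩ := cyc_nonempty hZ
  have key : ∀ (R : ℕ → Prop) (R' : ℤ → Prop), (∀ j : ℕ, R j ↔ R' (j : ℤ)) → ∀ n : ℕ, 1 ≤ n → Odd n →
      ((∃ k, E Z k (-1 * (n : ℤ)) ∧ R' (Pool.Agent.H499R2.LT.od 1 k (-1 * (n : ℤ)))) ↔
        ∃ k : ℕ, Enters Z k (-(n : ℤ)) ∧ R k) := by
    intro R R' hR n hn ho
    have ho' := Nat.odd_iff.1 ho
    rw [neg_cast]
    have hx : (-(n : ℤ)) % 2 = 1 := by omega
    constructor
    · rintro ⟨k, hk, hk2⟩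
      obtain ⟨j, hj, hj'⟩ := En_of_E hodd k _ hx hk
      exact ⟨j, hj', (hR j).2 (by rw [hj]; exact hk2)⟩
    · rintro ⟨j, hj, hj2⟩
      obtain ⟨k, hk, hk'⟩ := E_of_En hodd j _ hx hj
      exact ⟨k, hk', by rw [← hk]; exact (hR j).1 hj2⟩
  have kbas : ∀ n : ℕ, 1 ≤ n → Odd n → ((∃ k, E Z k (-1 * (n : ℤ))) ↔ ∃ k : ℕ, Syr^[k] (-(n : ℤ)) ∈ Z) := by
    intro n hn ho
    have h5 := key (fun _ => True) (fun _ => True) (fun _ => Iff.rfl) n hn ho
    simp only [and_true] at h5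
    rw [h5]
    constructor
    · rintro ⟨k, hk⟩; exact ⟨k, hk.1⟩
    · intro hk
      classical
      exact ⟨Nat.find hk, Nat.find_spec hk, fun i hi => Nat.find_min hk hi⟩
  refine ⟨d, hpos ⟨y, hy, by omega, hy3⟩, ?_, ?_, fun q b hq => ⟨?_, fun x => ?_⟩, fun η hη => ?_⟩
  · have h5 := Pool.Agent.H499R2.HL.dn_odd hE (Pool.Agent.H499R2.LT.Dn_iff (fun n _ => by
      rw [side_two]
      exact ⟨fun ⟨k, hk⟩ => ⟨k + 1, E_two hodd hk⟩, fun ⟨k, hk⟩ => by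
        obtain ⟨k', _, h'⟩ := E_of_two hodd hk
        exact ⟨k', h'⟩⟩) hE)
    refine Pool.Agent.H499R2.LT.Dn_iff (fun n hn => and_congr_right fun hn2 => ?_) h5
    exact kbas n hn (Nat.odd_iff.2 hn2)
  · exact at_of <| PO_of hRL 1 (fun n hn ho => kbas n hn ho)
  · exact at_of <| PO_of (hlaw q b hq).1 1 (fun n hn ho =>
      key (fun j => (j : ℤ) ≡ b [ZMOD q]) (fun o => o ≡ b [ZMOD q]) (fun _ => Iff.rfl) n hn ho)
  · have h5 := (hlaw q b hq).2 x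
    have e : d / (q : ℝ) * Pool.Agent.H499R2.ND.Phi x = d * EntranceAtProducts.Phi x / q := by
      unfold EntranceAtProducts.Phi
      rw [← Pool.Agent.H499R2.ND.phi_cdf]
      ring
    rw [e] at h5
    refine at_of <| PO_of h5 1 (fun n hn ho => ?_)
    beta_reduce
    rw [bound_eq]
    refine key (fun j => (j : ℝ) ≤ Pool.Agent.H499R2.HL.bo x (Real.log n) ∧ (j : ℤ) ≡ b [ZMOD q])
      (fun o => (o : ℝ) ≤ Pool.Agent.H499R2.HL.bo x (Real.log n) ∧ o ≡ b [ZMOD q]) (fun j => ?_) n hn ho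
    push_cast
    rfl
  · have hrr := Pool.Agent.H499R2.HL.rr_pos
    have hl2 : 0 < Real.log 2 := Real.log_pos (by norm_num)
    have h6 := lln2 (P := fun n : ℕ => ∃ k, E Z k (-1 * (n : ℤ)))
      (f := fun k n => E Z k (-1 * (n : ℤ)))
      (g := fun k n => (Pool.Agent.H499R2.LT.od 1 k (-1 * (n : ℤ)) : ℝ))
      (α := 1 / Real.log (4 / 3))
      (σ := Real.log 2 * Pool.Agent.H499R2.HL.rr) (δ := d) (η := η) (by positivity) h0 h1 hη (fun x => by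
        have h7 := (hlaw 1 0 le_rfl).2 x
        have e1 : d / ((1 : ℕ) : ℝ) * Pool.Agent.H499R2.ND.Phi x = d * Pool.Agent.H499R2.ND.Phi x := by simp
        rw [e1] at h7
        refine PL_congr 0 (fun n _ => exists_congr fun k => and_congr_right fun _ => ?_) h7
        rw [← Pool.Agent.Y964.LW.bo_thr]
        simp [Int.modEq_one]) hRL (fun n h => h)
    refine at_of <| PO_of h6 1 (fun n hn ho => ?_)
    beta_reduce
    rw [log_abs]
    refine key (fun j => |(j : ℝ) - 1 / Real.log (4 / 3) * Real.log n| ≤ η * Real.log n)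
      (fun o => |(o : ℝ) - 1 / Real.log (4 / 3) * Real.log n| ≤ η * Real.log n) (fun j => ?_) n hn ho
    push_cast
    rfl

/-- BASINS AND ENTRANCE TIMES AT THE PRODUCTS OF TWO ODD INTEGERS.
Every cycle `Z` of negative odd integers (known or not) has a basin of positive natural density `δ Z`.
In the sense of `AtProducts` (negative odd integers `N = -r a b`, `a ∈ (M, 2 M]`, `b ≤ X`,
`X ^ α ≤ M ≤ X ^ ϑ`, `r ≤ X ^ ϑ`, with arbitrary bounded complex weights `u a * v b` on the odd `a`, `b`):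
(1) the basin of `Z` has frequency `δ Z`; the `N` whose orbits enter `Z` after `k ≡ b` modulo `q` steps
have frequency `δ Z / q`, and those which enter it, moreover, after at most
`log |N| / log (4/3) + x log 2 √(2 log |N| / (log (4/3))^3)` steps have frequency `δ Z Φ(x) / q`, `Φ` the
standard normal distribution function; for every `η > 0` those which enter `Z` after
`(1 / log (4/3) ± η) log |N|` steps have frequency `δ Z`;
(2) the `N` for which the assertion of Q1 holds have frequency `δ C₁ + δ C₂ + δ C₃`, and this sum is `1`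
if and only if Q1 is true;
(3) the unbounded orbits have frequency `1 - ∑ δ Z`, the sum over all cycles, and this is `0` if and only if
there is no unbounded orbit;
(4) every set `S` of negative odd integers which contains `N` iff it contains `Syr N` has a natural
density, and this is its frequency.
(5) SETS. Let `P` have the frequency `l` at products. For every `ε > 0` there is `ϑ > 0` such that for all
`α > 0`, all large `X`, all `M` in `[X ^ α, X ^ ϑ]`, all odd `r ≤ X ^ ϑ` and ALL sets `A ⊆ (M, 2 M]`,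
`B ⊆ [1, X]` of odd integers the number of the pairs `a ∈ A`, `b ∈ B` with `P (-r a b)` is `l |A| |B|` up to
`ε M X`. If `l > 0` and `c > 0`, then (with `ϑ` depending on `c`) all such sets with `|A| ≥ c M` and
`|B| ≥ c X` contain `a`, `b` with `P (-r a b)`. -/
theorem result :
    (∃ δ : Finset ℤ → ℝ,
      (∀ Z : Finset ℤ, IsCycle Z →
        0 < δ Z ∧ HasDensity (fun N => ∃ k : ℕ, Syr^[k] N ∈ Z) (δ Z) ∧
        AtProducts (fun N => ∃ k : ℕ, Syr^[k] N ∈ Z) (δ Z) ∧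
        (∀ (q : ℕ) (b : ℤ), 1 ≤ q →
          AtProducts (fun N => ∃ k : ℕ, Enters Z k N ∧ (k : ℤ) ≡ b [ZMOD q]) (δ Z / q) ∧
          ∀ x : ℝ, AtProducts (fun N => ∃ k : ℕ, Enters Z k N ∧ (k : ℝ) ≤ bound x N ∧
            (k : ℤ) ≡ b [ZMOD q]) (δ Z * Phi x / q)) ∧
        ∀ η : ℝ, 0 < η → AtProducts (fun N => ∃ k : ℕ, Enters Z k N ∧
          |(k : ℝ) - 1 / Real.log (4 / 3) * Real.log (|(N : ℝ)|)| ≤ η * Real.log |(N : ℝ)|) (δ Z)) ∧
      (IsCycle C₁ ∧ IsCycle C₂ ∧ IsCycle C₃ ∧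
        AtProducts (fun N => ∃ k : ℕ, Syr^[k] N ∈ C₁ ∪ C₂ ∪ C₃) (δ C₁ + δ C₂ + δ C₃) ∧
        (δ C₁ + δ C₂ + δ C₃ = 1 ↔ ∀ N, N < 0 → Odd N → ∃ k : ℕ, Syr^[k] N ∈ C₁ ∪ C₂ ∪ C₃)) ∧
      ∃ D : ℝ, HasSum (fun Z : {Z : Finset ℤ // IsCycle Z} => δ Z) D ∧
        AtProducts (fun N => ∀ M : ℤ, ∃ k : ℕ, M < |Syr^[k] N|) (1 - D) ∧
        (D = 1 ↔ ∀ N, N < 0 → Odd N → ∃ M : ℤ, ∀ k : ℕ, |Syr^[k] N| ≤ M)) ∧
    (∀ S : Set ℤ, (∀ N, N < 0 → Odd N → (N ∈ S ↔ Syr N ∈ S)) →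
      ∃ d : ℝ, HasDensity (fun N => N ∈ S) d ∧ AtProducts (fun N => N ∈ S) d) ∧
    (∀ (P : ℤ → Prop) (l : ℝ), AtProducts P l →
      (∀ ε : ℝ, 0 < ε → ∃ ϑ : ℝ, 0 < ϑ ∧
        ∀ α : ℝ, 0 < α → ∃ X₀ : ℕ, ∀ X M r : ℕ, X₀ ≤ X → (X : ℝ) ^ α ≤ M → (M : ℝ) ≤ (X : ℝ) ^ ϑ →
        r % 2 = 1 → (r : ℝ) ≤ (X : ℝ) ^ ϑ → ∀ A B : Set ℕ, (∀ a ∈ A, M < a ∧ a ≤ 2 * M ∧ Odd a) →
        (∀ b ∈ B, b ≤ X ∧ Odd b) →
        |({p : ℕ × ℕ | p.1 ∈ A ∧ p.2 ∈ B ∧ P (-((r * p.1 * p.2 : ℕ) : ℤ))}.ncard : ℝ) -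
          l * (A.ncard * B.ncard)| ≤ ε * (M * X)) ∧
      (∀ c : ℝ, 0 < c → 0 < l → ∃ ϑ : ℝ, 0 < ϑ ∧
        ∀ α : ℝ, 0 < α → ∃ X₀ : ℕ, ∀ X M r : ℕ, X₀ ≤ X → (X : ℝ) ^ α ≤ M → (M : ℝ) ≤ (X : ℝ) ^ ϑ →
        r % 2 = 1 → (r : ℝ) ≤ (X : ℝ) ^ ϑ → ∀ A B : Set ℕ, (∀ a ∈ A, M < a ∧ a ≤ 2 * M ∧ Odd a) →
        (∀ b ∈ B, b ≤ X ∧ Odd b) → c * M ≤ A.ncard → c * X ≤ B.ncard →
        ∃ a ∈ A, ∃ b ∈ B, P (-((r * a * b : ℕ) : ℤ)))) := by
  have hconv : ∀ S : Set ℤ, (∀ N, N < 0 → Odd N → (N ∈ S ↔ Syr N ∈ S)) →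
      ∀ N : ℤ, N < 0 → N % 2 = 1 → (N ∈ S ↔ Pool.Agent.W26.HN.Sy N ∈ S) :=
    fun S hS N hN hodd => hS N hN (Int.odd_iff.2 hodd)
  refine ⟨?_, fun S hS => ?_, fun P l hP => ⟨fun ε hε => sets_of hP ε hε, fun c hc hl => ?_⟩⟩
  · classical
    have hex : ∀ Z : Finset ℤ, ∃ d : ℝ, Pool.Agent.W26.HN.IsCyc Z → 0 < d ∧
        Pool.Agent.H499R2.ND.Dn (fun n : ℕ => n % 2 = 1 ∧ -(n : ℤ) ∈ Pool.Agent.W26.HN.Ba Z) (d / 2) ∧
        AtProducts (fun N => ∃ k : ℕ, Syr^[k] N ∈ Z) d ∧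
        (∀ (q : ℕ) (b : ℤ), 1 ≤ q →
          AtProducts (fun N => ∃ k : ℕ, Enters Z k N ∧ (k : ℤ) ≡ b [ZMOD q]) (d / q) ∧
          ∀ x : ℝ, AtProducts (fun N => ∃ k : ℕ, Enters Z k N ∧ (k : ℝ) ≤ bound x N ∧
                (k : ℤ) ≡ b [ZMOD q]) (d * Phi x / q)) ∧
        (∀ η : ℝ, 0 < η → AtProducts (fun N => ∃ k : ℕ, Enters Z k N ∧
            |(k : ℝ) - 1 / Real.log (4 / 3) * Real.log (|(N : ℝ)|)| ≤ η * Real.log |(N : ℝ)|) d) := by
      intro Z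
      by_cases hZ : Pool.Agent.W26.HN.IsCyc Z
      · obtain ⟨d, hd⟩ := one_cyc hZ
        exact ⟨d, fun _ => hd⟩
      · exact ⟨0, fun h => absurd h hZ⟩
    choose δ hδ using hex
    refine ⟨δ, fun Z hZ => ?_, ?_, ?_⟩
    · obtain ⟨h0, h1, h2, h3, h4⟩ := hδ Z hZ
      exact ⟨h0, density_of h1, h2, h3, h4⟩
    · have hC : ∀ y ∈ C₁ ∪ C₂ ∪ C₃, Syr y ∈ C₁ ∪ C₂ ∪ C₃ := by
        intro y hy
        have h1 : ∀ {Z : Finset ℤ}, IsCycle Z → y ∈ Z → Syr y ∈ Z :=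
          fun hZ hyZ => Pool.Agent.W26.HN.cyc_step hZ y hyZ
        rw [Finset.mem_union, Finset.mem_union] at hy ⊢
        rcases hy with (hy | hy) | hy
        · exact Or.inl (Or.inl (h1 cycle₁ hy))
        · exact Or.inl (Or.inr (h1 cycle₂ hy))
        · exact Or.inr (h1 cycle₃ hy)
      have hinv : ∀ N : ℤ, N < 0 → N % 2 = 1 → (N ∈ Pool.Agent.W26.HN.Ba (C₁ ∪ C₂ ∪ C₃) ↔
          Pool.Agent.W26.HN.Sy N ∈ Pool.Agent.W26.HN.Ba (C₁ ∪ C₂ ∪ C₃)) :=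
        fun N _ _ => Pool.Agent.W26.HN.Ba_inv hC N
      obtain ⟨d, _, _, hHD, hd, _, h1⟩ := Pool.Agent.W26.HN.inv_density hinv
      have h12 : C₁ ≠ C₂ := by decide
      have h13 : C₁ ≠ C₃ := by decide
      have h23 : C₂ ≠ C₃ := by decide
      have hcy : ∀ Z ∈ ({C₁, C₂, C₃} : Finset (Finset ℤ)), IsCycle Z := by
        intro Z hZ
        rw [Finset.mem_insert, Finset.mem_insert, Finset.mem_singleton] at hZ
        rcases hZ with rfl | rfl | rfl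
        · exact cycle₁
        · exact cycle₂
        · exact cycle₃
      have h2 := Pool.Agent.H499R2.LT.Dn_sum ({C₁, C₂, C₃} : Finset (Finset ℤ))
        (fun Z n => n % 2 = 1 ∧ -(n : ℤ) ∈ Pool.Agent.W26.HN.Ba Z) (fun Z => δ Z / 2)
        (fun Z hZ => (hδ Z (hcy Z hZ)).2.1) (by
          rintro n Z hZ Z' hZ' ⟨_, k, hk⟩ ⟨_, k', hk'⟩
          exact Pool.Agent.W26.HN.cyc_eq (hcy Z hZ) (hcy Z' hZ') hk hk')
      have h3 : Pool.Agent.H499R2.ND.Dn (fun n : ℕ => n % 2 = 1 ∧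
          -(n : ℤ) ∈ Pool.Agent.W26.HN.Ba (C₁ ∪ C₂ ∪ C₃)) ((δ C₁ + δ C₂ + δ C₃) / 2) := by
        rw [Finset.sum_insert (by
          rw [Finset.mem_insert, Finset.mem_singleton]
          rintro (h | h)
          · exact h12 h
          · exact h13 h), Finset.sum_insert (by
          rw [Finset.mem_singleton]; exact h23), Finset.sum_singleton] at h2
        have e : δ C₁ / 2 + (δ C₂ / 2 + δ C₃ / 2) = (δ C₁ + δ C₂ + δ C₃) / 2 := by ring
        rw [e] at h2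
        refine Pool.Agent.H499R2.LT.Dn_iff (fun n _ => ?_) h2
        constructor
        · rintro ⟨Z, hZ, h4, k, hk⟩
          refine ⟨h4, k, ?_⟩
          rw [Finset.mem_union, Finset.mem_union]
          rw [Finset.mem_insert, Finset.mem_insert, Finset.mem_singleton] at hZ
          rcases hZ with rfl | rfl | rfl
          · exact Or.inl (Or.inl hk)
          · exact Or.inl (Or.inr hk)
          · exact Or.inr hk
        · rintro ⟨h4, k, hk⟩
          rw [Finset.mem_union, Finset.mem_union] at hk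
          rcases hk with (hk | hk) | hk
          · exact ⟨C₁, by simp, h4, k, hk⟩
          · exact ⟨C₂, by simp, h4, k, hk⟩
          · exact ⟨C₃, by simp, h4, k, hk⟩
      have h4 : d = δ C₁ + δ C₂ + δ C₃ := by
        have := tendsto_nhds_unique hd h3
        linarith
      refine ⟨cycle₁, cycle₂, cycle₃, ?_, ?_⟩
      · rw [← h4]
        exact (inv_rel hinv hHD).1
      · rw [← h4, h1]
        exact forall_congr' fun N => forall_congr' fun _ => by rw [Int.odd_iff]; exact Iff.rfl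
    · obtain ⟨D, hsum, hD, hD1⟩ := Pool.Agent.W26.HN.sum_cyc δ (fun Z hZ => (hδ Z hZ).2.1)
      have hub : ∀ N : ℤ, (∀ M : ℤ, ∃ k : ℕ, M < |Syr^[k] N|) ↔ N ∉ Pool.Agent.W26.HN.EP :=
        fun N => Pool.Agent.H499R2.ND.unbounded_iff Syr N
      have hinv : ∀ N : ℤ, N < 0 → N % 2 = 1 → (N ∈ Pool.Agent.W26.HN.EP ↔
          Pool.Agent.W26.HN.Sy N ∈ Pool.Agent.W26.HN.EP) := fun N _ _ => Pool.Agent.W26.HN.EP_inv N
      obtain ⟨d, _, _, hHD, hd, _, _⟩ := Pool.Agent.W26.HN.inv_density hinv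
      have h4 : d = D := by
        have := tendsto_nhds_unique hd hD
        linarith
      refine ⟨D, hsum, ?_, ?_⟩
      · have h5 := (inv_rel hinv hHD).2
        rw [h4] at h5
        have e : (fun N : ℤ => ∀ M : ℤ, ∃ k : ℕ, M < |Syr^[k] N|) = fun N => N ∉ Pool.Agent.W26.HN.EP :=
          funext fun N => propext (hub N)
        rw [e]
        exact h5
      · rw [hD1]
        refine forall_congr' fun N => forall_congr' fun _ => ?_
        rw [Int.odd_iff]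
        refine forall_congr' fun _ => ?_
        have h1 := hub N
        constructor
        · intro h
          by_contra hcon
          push Not at hcon
          exact (h1.1 hcon) h
        · rintro ⟨M, hM⟩
          by_contra hcon
          obtain ⟨k, hk⟩ := h1.2 hcon M
          exact absurd (hM k) (not_le.2 hk)
  · obtain ⟨d, _, _, hHD, hd, _, _⟩ := Pool.Agent.W26.HN.inv_density (hconv S hS)
    exact ⟨d, density_of hd, (inv_rel (hconv S hS) hHD).1⟩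
  · obtain ⟨ϑ, h0, H⟩ := sets_of hP (l * c ^ 2 / 2) (by positivity)
    refine ⟨ϑ, h0, fun α hα => ?_⟩
    obtain ⟨X0, H⟩ := H α hα
    refine ⟨max X0 1, fun X M r hX hM1 hM2 hr hr2 A B hA hB hAc hBc => ?_⟩
    have h1 := H X M r ((le_max_left _ _).trans hX) hM1 hM2 hr hr2 A B hA hB
    have hX1 : (1 : ℝ) ≤ X := by exact_mod_cast (le_max_right _ _).trans hX
    have hM0 : (0 : ℝ) < M := lt_of_lt_of_le (Real.rpow_pos_of_pos (by linarith) _) hM1
    by_contra hcon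
    push Not at hcon
    have h2 : {p : ℕ × ℕ | p.1 ∈ A ∧ p.2 ∈ B ∧ P (-((r * p.1 * p.2 : ℕ) : ℤ))} = ∅ := by
      rw [Set.eq_empty_iff_forall_notMem]
      rintro p ⟨h3, h4, h5⟩
      exact hcon p.1 h3 p.2 h4 h5
    rw [h2, Set.ncard_empty, abs_le] at h1
    have h3 : (c * M) * (c * X) ≤ (A.ncard : ℝ) * B.ncard := by
      apply mul_le_mul hAc hBc (by positivity) (by positivity)
    have h4 := mul_le_mul_of_nonneg_left h3 hl.le
    have h5 : 0 < l * (c ^ 2 * (M * X)) := by positivity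
    have h6 := h1.1
    push_cast at h6
    nlinarith

end Pool.Agent.Results.MP_005f52_nt.EntranceAtProducts
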