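import Mathlib
import Pool.Agent.W38.AN
import Pool.Agent.X213.SuffNeg

set_option autoImplicit false

/-!
# Sufficient sets for the Syracuse map on the negative odd integers

A set `S` of integers is *spread* if it is not too sparse in most short intervals on the negative
side; sets whose odd negative elements have bounded gaps are spread. In a spread set every merging
class of the Syracuse map on the negative odd integers has positive lower density. So each of the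
three basins has positive lower density in `S`, and if Q1 is false then the counterexamples have
positive lower density in `S`: Q1 holds as soon as the elements of `S` which do not reach `-1`, `-5`
or `-17` have lower density zero.
The engine is the library `Pool.Agent.H499R2.CO` (coalescence of trajectories in short intervals).
-/

namespace Pool.Agent.Results.MP_005f52_nt.SufficientSets

open Filter Topology

/-- The Syracuse map. -/
def Syr (N : ℤ) : ℤ := (3 * N + 1) / 2 ^ padicValInt 2 (3 * N + 1)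

/-- The Syracuse orbit of `N` contains `z`. -/
def Reaches (N z : ℤ) : Prop := ∃ k : ℕ, Syr^[k] N = z

/-- The Syracuse orbit of `N` contains `-1`, `-5` or `-17`. -/
def Good (N : ℤ) : Prop := Reaches N (-1) ∨ Reaches N (-5) ∨ Reaches N (-17)

/-- The number of the odd elements of `S` among `-n + 1, ..., -n + H`. -/
noncomputable def count (S : Set ℤ) (n H : ℕ) : ℕ :=
  {x : ℤ | x ∈ S ∧ Odd x ∧ -(n : ℤ) < x ∧ x ≤ -(n : ℤ) + H}.ncard

/-- For every `ε > 0` there is `c > 0` such that for every `θ` with `0 < θ < 1` and all large `N`,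
with `H = ⌊N ^ θ⌋`: all but at most `ε N` of the `n ≤ N` have at least `c H` odd elements of `S`
among `-n + 1, ..., -n + H`. -/
def Spread (S : Set ℤ) : Prop :=
  ∀ ε : ℝ, 0 < ε → ∃ c : ℝ, 0 < c ∧ ∀ θ : ℝ, 0 < θ → θ < 1 → ∀ᶠ N : ℕ in atTop,
    ({n : ℕ | 1 ≤ n ∧ n ≤ N ∧
      (count S n ⌊(N : ℝ) ^ θ⌋₊ : ℝ) < c * ⌊(N : ℝ) ^ θ⌋₊}.ncard : ℝ) ≤ ε * N

/-- Every interval `[-n - L, -n]` with `n` natural contains an odd element of `S`. -/
def BoundedGaps (S : Set ℤ) (L : ℕ) : Prop :=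
  ∀ n : ℕ, ∃ x ∈ S, Odd x ∧ -(n : ℤ) - L ≤ x ∧ x ≤ -(n : ℤ)

/-- The number of the negative odd elements `x ≥ -N` of `S` with the property `P`. -/
noncomputable def num (S : Set ℤ) (P : ℤ → Prop) (N : ℕ) : ℕ :=
  {x : ℤ | x ∈ S ∧ Odd x ∧ x < 0 ∧ -(N : ℤ) ≤ x ∧ P x}.ncard

/-- The negative odd elements of `S` with the property `P` have positive lower density. -/
def Thick (S : Set ℤ) (P : ℤ → Prop) : Prop :=
  ∃ δ : ℝ, 0 < δ ∧ ∀ᶠ N : ℕ in atTop, δ * N ≤ (num S P N : ℝ)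

theorem fin_num (S : Set ℤ) (P : ℤ → Prop) (N : ℕ) :
    {x : ℤ | x ∈ S ∧ Odd x ∧ x < 0 ∧ -(N : ℤ) ≤ x ∧ P x}.Finite :=
  (Set.finite_Icc (-(N : ℤ)) 0).subset fun _ hx => ⟨hx.2.2.2.1, hx.2.2.1.le⟩

theorem fin_count (S : Set ℤ) (n H : ℕ) :
    {x : ℤ | x ∈ S ∧ Odd x ∧ -(n : ℤ) < x ∧ x ≤ -(n : ℤ) + H}.Finite :=
  (Set.finite_Icc (-(n : ℤ)) (-(n : ℤ) + H)).subset fun _ hx => ⟨hx.2.2.1.le, hx.2.2.2⟩

theorem small_rpow {θ : ℝ} (hθ : θ < 1) {ε : ℝ} (hε : 0 < ε) :
    ∀ᶠ N : ℕ in atTop, (N : ℝ) ^ θ ≤ ε * N := by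
  have h1 : Tendsto (fun N : ℕ => (N : ℝ) ^ (-(1 - θ))) atTop (𝓝 0) :=
    (tendsto_rpow_neg_atTop (by linarith)).comp tendsto_natCast_atTop_atTop
  filter_upwards [h1.eventually (gt_mem_nhds hε), eventually_gt_atTop 0] with N hN hN0
  have hNr : (0 : ℝ) < N := by exact_mod_cast hN0
  have h2 : (N : ℝ) ^ θ = (N : ℝ) ^ (-(1 - θ)) * N := by
    conv_rhs => rw [← Real.rpow_one (N : ℝ), Real.rpow_one (N : ℝ)]
    nth_rewrite 3 [← Real.rpow_one (N : ℝ)]
    rw [← Real.rpow_add hNr]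
    congr 1
    ring
  rw [h2]
  exact mul_le_mul_of_nonneg_right hN.le hNr.le

theorem spread_of_gaps {S : Set ℤ} {L : ℕ} (h : BoundedGaps S L) : Spread S := by
  intro ε hε
  refine ⟨1 / (2 * (L + 1)), by positivity, fun θ hθ hθ1 => ?_⟩
  have hev : ∀ᶠ N : ℕ in atTop, L + 1 ≤ ⌊(N : ℝ) ^ θ⌋₊ := by
    have h1 : Tendsto (fun N : ℕ => (N : ℝ) ^ θ) atTop atTop :=
      (tendsto_rpow_atTop hθ).comp tendsto_natCast_atTop_atTop
    filter_upwards [h1.eventually_ge_atTop ((L + 1 : ℕ) : ℝ)] with N hN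
    exact Nat.le_floor hN
  filter_upwards [hev, small_rpow hθ1 hε] with N hN hN2
  set H := ⌊(N : ℝ) ^ θ⌋₊ with hH
  have hHle : (H : ℝ) ≤ ε * N := (Nat.floor_le (by positivity)).trans hN2
  refine le_trans ?_ hHle
  have hsub : {n : ℕ | 1 ≤ n ∧ n ≤ N ∧ (count S n H : ℝ) < 1 / (2 * (L + 1)) * H} ⊆
      Set.Icc 1 H := by
    rintro n ⟨hn1, _, h3⟩
    refine ⟨hn1, ?_⟩
    by_contra hn2
    rw [not_le] at hn2
    have h4 : H / (L + 1) ≤ count S n H := by
      have hch : ∀ i : ℕ, ∃ x : ℤ, i < H / (L + 1) → (x ∈ S ∧ Odd x ∧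
          -(n : ℤ) + ((L + 1) * i : ℕ) + 1 ≤ x ∧ x ≤ -(n : ℤ) + ((L + 1) * (i + 1) : ℕ)) := by
        intro i
        by_cases hi : i < H / (L + 1)
        · have e3 : (L + 1) * (i + 1) ≤ H := by
            calc (L + 1) * (i + 1) ≤ (L + 1) * (H / (L + 1)) := Nat.mul_le_mul_left _ hi
              _ ≤ H := Nat.mul_div_le _ _
          obtain ⟨x, hx1, hx2, hx3, hx4⟩ := h (n - (L + 1) * (i + 1))
          refine ⟨x, fun _ => ⟨hx1, hx2, ?_, ?_⟩⟩
          · rw [mul_add, mul_one] at e3 hx3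
            omega
          · omega
        · exact ⟨0, fun h => absurd h hi⟩
      choose g hg using hch
      have hinj : Set.InjOn g (Finset.range (H / (L + 1)) : Set ℕ) := by
        intro i hi i' hi' hii
        rw [Finset.mem_coe, Finset.mem_range] at hi hi'
        obtain ⟨_, _, e1, e2⟩ := hg i hi
        obtain ⟨_, _, e3, e4⟩ := hg i' hi'
        by_contra hne
        rcases lt_or_gt_of_ne hne with hlt | hlt
        · have : (L + 1) * (i + 1) ≤ (L + 1) * i' := Nat.mul_le_mul_left _ hlt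
          omega
        · have : (L + 1) * (i' + 1) ≤ (L + 1) * i := Nat.mul_le_mul_left _ hlt
          omega
      have h5 := Set.ncard_le_ncard (s := g '' (Finset.range (H / (L + 1)) : Set ℕ))
        (t := {x : ℤ | x ∈ S ∧ Odd x ∧ -(n : ℤ) < x ∧ x ≤ -(n : ℤ) + H}) (by
          rintro _ ⟨i, hi, rfl⟩
          rw [Finset.mem_coe, Finset.mem_range] at hi
          obtain ⟨e1, e2, e3, e4⟩ := hg i hi
          have e5 : (L + 1) * (i + 1) ≤ H := by
            calc (L + 1) * (i + 1) ≤ (L + 1) * (H / (L + 1)) := Nat.mul_le_mul_left _ hi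
              _ ≤ H := Nat.mul_div_le _ _
          exact ⟨e1, e2, by omega, by omega⟩) (fin_count S n H)
      rw [hinj.ncard_image, Set.ncard_coe_finset, Finset.card_range] at h5
      exact h5
    have h5 : (H : ℝ) < (H / (L + 1) : ℕ) * (L + 1) + (L + 1) := by
      have := Nat.lt_div_mul_add (a := H) (b := L + 1) (by omega)
      exact_mod_cast this
    have h6 : ((H / (L + 1) : ℕ) : ℝ) ≤ (count S n H : ℝ) := by exact_mod_cast h4
    have h7 : (1 : ℝ) ≤ ((H / (L + 1) : ℕ) : ℝ) := by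
      have : 1 ≤ H / (L + 1) := (Nat.one_le_div_iff (by omega)).2 hN
      exact_mod_cast this
    have h8 : ((H / (L + 1) : ℕ) : ℝ) < 1 / (2 * ((L : ℝ) + 1)) * H := lt_of_le_of_lt h6 h3
    rw [one_div, inv_mul_eq_div, lt_div_iff₀ (by positivity)] at h8
    have h9 : (0 : ℝ) < (L : ℝ) + 1 := by positivity
    nlinarith
  have h10 := Set.ncard_le_ncard hsub (Set.finite_Icc 1 H)
  have h11 : (Set.Icc 1 H : Set ℕ).ncard = H := by
    rw [← Finset.coe_Icc, Set.ncard_coe_finset, Nat.card_Icc]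
    omega
  rw [h11] at h10
  exact_mod_cast h10

/-- The main tool. -/
theorem thick_of_inv {S : Set ℤ} (hS : Spread S) {R : Set ℤ}
    (hR : ∀ x, x ∈ R ↔ Pool.Agent.W38.AN.T x ∈ R) {b : ℤ} (hb : b < 0) (hbR : b ∈ R)
    {P : ℤ → Prop} (hP : ∀ x : ℤ, x < 0 → Odd x → x ∈ R → P x) : Thick S P := by
  classical
  rw [Pool.Agent.W38.AN.T_eq] at hR
  obtain ⟨δ, hδ, hev⟩ := Pool.Agent.X213.SuffNeg.spread_density hR hb hbR {x : ℤ | x ∈ S ∧ Odd x} (by
    intro ε hε
    obtain ⟨c, hc, hθ⟩ := hS ε hε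
    refine ⟨c, hc, fun θ hθ0 hθ1 => (hθ θ hθ0 hθ1).mono fun N hN => ?_⟩
    have e : ∀ n : ℕ, count S n ⌊(N : ℝ) ^ θ⌋₊ = (Finset.filter (fun j : ℕ =>
        -1 * ((n : ℕ) : ℤ) + ((j : ℕ) : ℤ) ∈ {x : ℤ | x ∈ S ∧ Odd x})
          (Finset.Icc 1 ⌊(N : ℝ) ^ θ⌋₊)).card := by
      intro n
      unfold count
      rw [← Set.ncard_coe_finset]
      have : {x : ℤ | x ∈ S ∧ Odd x ∧ -(n : ℤ) < x ∧ x ≤ -(n : ℤ) + (⌊(N : ℝ) ^ θ⌋₊ : ℕ)} =
          (fun h : ℕ => -1 * (n : ℤ) + (h : ℤ)) '' ((Finset.filter (fun j : ℕ =>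
            -1 * ((n : ℕ) : ℤ) + ((j : ℕ) : ℤ) ∈ {x : ℤ | x ∈ S ∧ Odd x})
              (Finset.Icc 1 ⌊(N : ℝ) ^ θ⌋₊) : Finset ℕ) : Set ℕ) := by
        ext x
        rw [Set.mem_image]
        simp only [Finset.coe_filter, Finset.mem_Icc, Set.mem_ofPred_eq]
        constructor
        · rintro ⟨h1, h2, h3, h4⟩
          obtain ⟨j, hj⟩ : ∃ j : ℕ, x = -1 * (n : ℤ) + (j : ℤ) := ⟨(x + n).toNat, by omega⟩
          refine ⟨j, ⟨⟨by omega, by omega⟩, ?_⟩, hj.symm⟩
          rw [← hj]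
          exact ⟨h1, h2⟩
        · rintro ⟨j, ⟨⟨h1, h2⟩, h3, h4⟩, rfl⟩
          exact ⟨h3, h4, by omega, by omega⟩
      rw [this, Set.ncard_image_of_injective]
      intro a b hab
      have : -1 * (n : ℤ) + (a : ℤ) = -1 * (n : ℤ) + (b : ℤ) := hab
      omega
    refine le_trans (le_of_eq ?_) hN
    rw [← Set.ncard_coe_finset]
    congr 2
    ext n
    simp only [Finset.coe_filter, Finset.mem_Icc, Set.mem_ofPred_eq, e]
    tauto)
  refine ⟨δ, hδ, hev.mono fun N hN => hN.trans ?_⟩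
  have h1 : (Finset.filter (fun n : ℕ => -1 * ((n : ℕ) : ℤ) ∈ {x : ℤ | x ∈ S ∧ Odd x} ∧
      -1 * ((n : ℕ) : ℤ) ∈ R) (Finset.Icc 1 N)).card ≤ num S P N := by
    unfold num
    rw [← Set.ncard_coe_finset, ← Set.ncard_image_of_injective (f := fun n : ℕ => -1 * (n : ℤ))]
    · apply Set.ncard_le_ncard _ (fin_num S P N)
      rintro _ ⟨n, hn, rfl⟩
      rw [Finset.mem_coe, Finset.mem_filter, Finset.mem_Icc] at hn
      obtain ⟨⟨n1, n2⟩, ⟨n3, n4⟩, n5⟩ := hn
      have hneg : -1 * (n : ℤ) < 0 := by omega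
      have hge : -(N : ℤ) ≤ -1 * (n : ℤ) := by omega
      exact ⟨n3, n4, hneg, hge, hP _ hneg n4 n5⟩
    · intro a b hab
      have : -1 * (a : ℤ) = -1 * (b : ℤ) := hab
      omega
  exact_mod_cast h1

open Pool.Agent.W38.AN in
theorem merge_inv (m x : ℤ) : x ∈ {x : ℤ | ∃ i j : ℕ, T^[i] x = T^[j] m} ↔
    T x ∈ {x : ℤ | ∃ i j : ℕ, T^[i] x = T^[j] m} := by
  constructor
  · rintro ⟨i, j, h⟩
    refine ⟨i, j + 1, ?_⟩
    rw [← Function.iterate_succ_apply, Function.iterate_succ_apply', h,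
      ← Function.iterate_succ_apply' T j m]
  · rintro ⟨i, j, h⟩
    exact ⟨i + 1, j, by rw [Function.iterate_succ_apply]; exact h⟩

open Pool.Agent.W38.AN in
theorem reach_Rz {N z : ℤ} (hN : Odd N) (hz : z % 2 = 1) : Reaches N z ↔ N ∈ Rz z :=
  reach_iff (Int.odd_iff.1 hN) hz

open Pool.Agent.W38.AN in
theorem period {z : ℤ} (hz : z = -1 ∨ z = -5 ∨ z = -17) : ∃ p, T^[p + 1] z = z := by
  rcases hz with rfl | rfl | rfl
  · exact ⟨0, by decide⟩
  · exact ⟨2, by decide⟩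
  · exact ⟨10, by decide⟩

/-- Let `S` be spread, or have bounded gaps. (1) Every merging class of negative odd integers, and
(2) each of the three basins, has positive lower density in `S`. (3) If Q1 is false, then the
counterexamples have positive lower density in `S`. (4) Q1 holds if and only if the negative odd
elements of `S` which do not reach `-1`, `-5` or `-17` have lower density zero. -/
theorem result (S : Set ℤ) (hS : Spread S ∨ ∃ L : ℕ, BoundedGaps S L) :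
    (∀ m : ℤ, m < 0 → Odd m → Thick S (fun x => ∃ i j : ℕ, Syr^[i] x = Syr^[j] m)) ∧
    (∀ z : ℤ, z = -1 ∨ z = -5 ∨ z = -17 → Thick S (fun x => Reaches x z)) ∧
    ((∃ m : ℤ, m < 0 ∧ Odd m ∧ ¬ Good m) → Thick S (fun x => ¬ Good x)) ∧
    ((∀ m : ℤ, m < 0 → Odd m → Good m) ↔
      ∀ ε : ℝ, 0 < ε → ∃ᶠ N : ℕ in atTop, (num S (fun x => ¬ Good x) N : ℝ) ≤ ε * N) := by
  have hS' : Spread S := by
    rcases hS with h | ⟨L, h⟩
    · exact h
    · exact spread_of_gaps h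
  have h3 : (∃ m : ℤ, m < 0 ∧ Odd m ∧ ¬ Good m) → Thick S (fun x => ¬ Good x) := by
    rintro ⟨m, hm1, hm2, hm3⟩
    have hG : ∀ x : ℤ, Odd x → (Good x ↔ x ∈ {x : ℤ | x ∈ Pool.Agent.W38.AN.Rz (-1) ∨
        x ∈ Pool.Agent.W38.AN.Rz (-5) ∨ x ∈ Pool.Agent.W38.AN.Rz (-17)}) := by
      intro x hx
      unfold Good
      rw [reach_Rz hx (by norm_num), reach_Rz hx (by norm_num), reach_Rz hx (by norm_num)]
      rfl
    apply thick_of_inv hS' (R := {x : ℤ | x ∉ {x : ℤ | x ∈ Pool.Agent.W38.AN.Rz (-1) ∨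
        x ∈ Pool.Agent.W38.AN.Rz (-5) ∨ x ∈ Pool.Agent.W38.AN.Rz (-17)}}) ?_ hm1
    · show ¬ (m ∈ _)
      rw [← hG m hm2]
      exact hm3
    · intro x _ hx hx2
      rw [hG x hx]
      exact hx2
    · intro x
      have e1 := Pool.Agent.W38.AN.Rz_T (period (z := -1) (by omega)) x
      have e2 := Pool.Agent.W38.AN.Rz_T (period (z := -5) (by omega)) x
      have e3 := Pool.Agent.W38.AN.Rz_T (period (z := -17) (by omega)) x
      simp only [Set.mem_ofPred_eq]
      rw [e1, e2, e3]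
  refine ⟨fun m hm hmo => ?_, fun z hz => ?_, h3, ?_⟩
  · have hmR : m ∈ {x : ℤ | ∃ i j : ℕ, Pool.Agent.W38.AN.T^[i] x = Pool.Agent.W38.AN.T^[j] m} :=
      ⟨0, 0, rfl⟩
    apply thick_of_inv hS' (merge_inv m) hm hmR
    rintro x _ hx ⟨i, j, hij⟩
    exact Pool.Agent.W38.AN.merge_syr (Int.odd_iff.1 hx) (Int.odd_iff.1 hmo) hij
  · have hzo : z % 2 = 1 := by omega
    apply thick_of_inv hS' (Pool.Agent.W38.AN.Rz_T (period hz)) (by omega)
      (⟨0, rfl⟩ : z ∈ Pool.Agent.W38.AN.Rz z)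
    intro x _ hx hxR
    exact (reach_Rz hx hzo).2 hxR
  · constructor
    · intro h ε hε
      refine Eventually.frequently (Eventually.of_forall fun N => ?_)
      have : num S (fun x => ¬ Good x) N = 0 := by
        unfold num
        rw [Set.ncard_eq_zero (fin_num S _ N), Set.eq_empty_iff_forall_notMem]
        rintro x ⟨_, h2, h4, _, h5⟩
        exact h5 (h x h4 h2)
      rw [this]
      push_cast
      positivity
    · intro h m hm hmo
      by_contra hcon
      obtain ⟨δ, hδ, hev⟩ := h3 ⟨m, hm, hmo, hcon⟩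
      obtain ⟨N, h5, h6, h7⟩ := ((h (δ / 2) (by positivity)).and_eventually
        (hev.and (eventually_gt_atTop 0))).exists
      have hNr : (0 : ℝ) < N := by exact_mod_cast h7
      have : 0 < δ * N := by positivity
      linarith

end Pool.Agent.Results.MP_005f52_nt.SufficientSets
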